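import Pool.Agent.H606.OS.Z2

/-! The zeros of zeta: the abstract data, sums over indices. -/

open MeasureTheory Filter Topology Finset

namespace Pool.Agent.H606.OS

/-- the zeros of zeta as abstract data -/
theorem zeta_data (hGK : S_GK) (hL2K : S_L2K) (hNICE : S_NICE) :
    ∃ C0 : ℝ, 0 < C0 ∧ ∃ D : ZD C0, D.ZG = zg ∧ D.m = mr := by
  obtain ⟨C1, hC1, h1⟩ := loc_zeta
  obtain ⟨C2, hC2, h2⟩ := w2_zeta
  refine ⟨C1 + C2, by positivity, ⟨zg, mr, mr_nonneg, zg_mem, zg_coh, ?_, cnt_zeta, ?_,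
    fun b hb hb12 η hη => ms_zeta hGK hL2K hNICE b hb hb12 η hη⟩, rfl, rfl⟩
  · intro T hT t
    refine (h1 T hT t).trans ?_
    have : 0 ≤ Real.log T := Real.log_nonneg (by linarith)
    nlinarith
  · filter_upwards [h2, eventually_ge_atTop 0] with T h3 hT
    refine h3.trans ?_
    nlinarith

theorem fib0 (T t : ℝ) (h1 : 0 < t) (h2 : t ≤ T) :
    ((Finset.Ioc 0 (SG.NZ T)).filter (fun n => SG.ord n = t)).card =
      ∑ z ∈ (zg T).filter (fun z => z.im = t), SG.zmult z := by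
  classical
  have e := SG.ord_count t h1
  have e1 : {n : ℕ | 1 ≤ n ∧ SG.ord n = t} =
      ((Finset.Ioc 0 (SG.NZ T)).filter (fun n => SG.ord n = t) : Finset ℕ) := by
    ext n
    rw [Finset.coe_filter, Set.mem_ofPred_eq, Set.mem_ofPred_eq, Finset.mem_Ioc]
    constructor
    · rintro ⟨a1, a2⟩
      refine ⟨⟨a1, ?_⟩, a2⟩
      apply (SG.ord_le_iff a1 _).mp
      linarith
    · rintro ⟨⟨a1, a2⟩, a3⟩
      exact ⟨by omega, a3⟩
  rw [e1, Set.ncard_coe_finset] at e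
  rw [e]
  have e2 : {s : ℂ | riemannZeta s = 0 ∧ 0 < s.re ∧ s.re < 1 ∧ s.im = t} =
      ((zg T).filter (fun z => z.im = t) : Finset ℂ) := by
    ext s
    rw [Finset.coe_filter, Set.mem_ofPred_eq, Set.mem_ofPred_eq, mem_zg]
    constructor
    · rintro ⟨a1, a2, a3, a4⟩
      exact ⟨⟨a1, a2, a3, by linarith, by linarith⟩, a4⟩
    · rintro ⟨⟨a1, a2, a3, a4, a5⟩, a6⟩
      exact ⟨a1, a2, a3, a6⟩
  rw [e2, finsum_mem_coe_finset]

theorem idx_sum (T : ℝ) (g : ℝ → ℝ) :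
    ∑ n ∈ Finset.Ioc 0 (SG.NZ T), g (SG.ord n) = ∑ z ∈ zg T, mr z * g z.im := by
  classical
  set A := Finset.Ioc 0 (SG.NZ T) with hA
  set B := zg T with hB
  set S : Finset ℝ := A.image SG.ord ∪ B.image (fun z : ℂ => z.im) with hS
  have hSb : ∀ t ∈ S, 0 < t ∧ t ≤ T := by
    intro t ht
    rw [hS, Finset.mem_union, Finset.mem_image, Finset.mem_image] at ht
    rcases ht with ⟨n, hn, rfl⟩ | ⟨z, hz, rfl⟩
    · rw [hA, Finset.mem_Ioc] at hn
      exact ⟨SG.ord_pos (by omega), (SG.ord_le_iff (by omega) _).mpr hn.2⟩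
    · rw [hB, mem_zg] at hz
      exact ⟨hz.2.2.2.1, hz.2.2.2.2⟩
  have m1 : ∀ n ∈ A, SG.ord n ∈ S := fun n hn =>
    Finset.mem_union_left _ (Finset.mem_image_of_mem _ hn)
  have m2 : ∀ z ∈ B, z.im ∈ S := fun z hz =>
    Finset.mem_union_right _ (Finset.mem_image_of_mem (fun z : ℂ => z.im) hz)
  rw [← Finset.sum_fiberwise_of_maps_to m1, ← Finset.sum_fiberwise_of_maps_to m2]
  apply Finset.sum_congr rfl
  intro t ht
  have h1 : ∑ n ∈ A.filter (fun n => SG.ord n = t), g (SG.ord n) =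
      ((A.filter (fun n => SG.ord n = t)).card : ℝ) * g t := by
    rw [Finset.sum_congr rfl (g := fun _ => g t)]
    · rw [Finset.sum_const, nsmul_eq_mul]
    · intro n hn
      rw [(Finset.mem_filter.mp hn).2]
  have h2 : ∑ z ∈ B.filter (fun z => z.im = t), mr z * g z.im =
      ((∑ z ∈ B.filter (fun z => z.im = t), SG.zmult z : ℕ) : ℝ) * g t := by
    rw [Nat.cast_sum, Finset.sum_mul]
    apply Finset.sum_congr rfl
    intro z hz
    rw [(Finset.mem_filter.mp hz).2]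
    rfl
  rw [h1, h2, hA, hB, fib0 T t (hSb t ht).1 (hSb t ht).2]

/-- the normalised ordinates up to `T` -/
noncomputable def xz (T : ℝ) (j : Fin (SG.NZ T)) : ℝ :=
  SG.ord ((j : ℕ) + 1) * (Real.log T / (2 * Real.pi))

/-- the normalisation -/
noncomputable def Rz (T : ℝ) : ℝ := T * Real.log T / (2 * Real.pi)

theorem fin_sum (T : ℝ) (g : ℝ → ℝ) :
    ∑ j : Fin (SG.NZ T), g (SG.ord ((j : ℕ) + 1)) = ∑ z ∈ zg T, mr z * g z.im := by
  rw [← idx_sum, Finset.sum_range (f := fun j => g (SG.ord (j + 1))) |>.symm]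
  rw [Finset.range_eq_Ico, Finset.sum_Ico_add' (fun n => g (SG.ord n)) 0 (SG.NZ T) 1]
  rfl

theorem PW_eq (T b : ℝ) : PW (zg T) mr T b =
    ∑ j : Fin (SG.NZ T), ∑ k : Fin (SG.NZ T), kk (2 * Real.pi * b * (xz T j - xz T k)) := by
  have e : ∀ j k : Fin (SG.NZ T), kk (2 * Real.pi * b * (xz T j - xz T k)) =
      kk (b * Real.log T * (SG.ord ((j : ℕ) + 1) - SG.ord ((k : ℕ) + 1))) := by
    intro j k
    congr 1
    unfold xz
    field_simp
  simp_rw [e]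
  have e2 : ∀ j : Fin (SG.NZ T), ∑ k : Fin (SG.NZ T),
      kk (b * Real.log T * (SG.ord ((j : ℕ) + 1) - SG.ord ((k : ℕ) + 1))) =
      (fun x => ∑ z ∈ zg T, mr z * kk (b * Real.log T * (x - z.im))) (SG.ord ((j : ℕ) + 1)) :=
    fun j => fin_sum T (fun y => kk (b * Real.log T * (SG.ord ((j : ℕ) + 1) - y)))
  rw [Finset.sum_congr rfl fun j _ => e2 j, fin_sum T
    (fun x => ∑ z ∈ zg T, mr z * kk (b * Real.log T * (x - z.im)))]
  unfold PW
  refine Finset.sum_congr rfl fun s _ => ?_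
  rw [Finset.mul_sum]
  refine Finset.sum_congr rfl fun z _ => ?_
  ring

theorem Rz_pos {T : ℝ} (hT : 1 < T) : 0 < Rz T := by
  have := Real.log_pos hT
  have := Real.pi_pos
  have : 0 < T := by linarith
  unfold Rz
  positivity

theorem NZ_lim : Tendsto (fun T : ℝ => (SG.NZ T : ℝ) / Rz T) atTop (𝓝 1) := by
  rw [Metric.tendsto_atTop]
  intro ε hε
  obtain ⟨T0, hT0, h⟩ := Pool.Agent.W54.TCF.NT_asymp' (ε / 2) (by positivity)
  refine ⟨T0, fun T hT => ?_⟩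
  have hT10 : (10 : ℝ) ≤ T := hT0.trans hT
  obtain ⟨h1, h2⟩ := h T hT
  have hNN : SG.NZ T = H370.NN riemannZeta 0 T := by
    unfold SG.NZ H370.NN
    apply finsum_mem_congr
    · ext s
      simp only [Set.mem_ofPred_eq, H370.zset]
      tauto
    · intro s _
      rfl
  rw [← hNN] at h1 h2
  have hpos : 0 < Rz T := Rz_pos (by linarith)
  have e : T / (2 * Real.pi) * Real.log T = Rz T := by unfold Rz; ring
  rw [e] at h1 h2
  rw [Real.dist_eq, abs_lt]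
  constructor
  · have : 1 - ε / 2 ≤ (SG.NZ T : ℝ) / Rz T := by
      rw [le_div_iff₀ hpos]; exact h1
    linarith
  · have : (SG.NZ T : ℝ) / Rz T ≤ 1 + ε / 2 := by
      rw [div_le_iff₀ hpos]; exact h2
    linarith

/-- the configurations of the normalised ordinates of zeta -/
theorem zeta_cg (hGK : S_GK) (hL2K : S_L2K) (hNICE : S_NICE) (hN1 : S_N1G) (hN2 : S_N2G) :
    ∃ (C1 : ℝ) (_ : 0 < C1) (p1 : ∀ᶠ T in atTop, 0 < Rz T)
      (p2 : Tendsto (fun T => (SG.NZ T : ℝ) / Rz T) atTop (𝓝 1))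
      (p3 : ∀ (n : ℕ) (b0 : ℝ), 0 < b0 → b0 ≤ 1 / 12 → ∀ᶠ T in atTop,
        ∑ i ∈ range n, (ssum (xz T) (Rz T) (b0 / 2 ^ i) - (1 / (b0 / 2 ^ i) + b0 / 2 ^ i / 6)) /
          (b0 / 2 ^ i) ^ 2 ≤ C1 * (Real.sqrt n + 1))
      (p4 : ∀ b : ℝ, 0 < b → b ≤ 1 / 12 → ∀ η : ℝ, 0 < η → ∀ᶠ T in atTop,
        1 / b - η ≤ ssum (xz T) (Rz T) b),
      ∃ D : Cg C1, D = ⟨SG.NZ, xz, Rz, p1, p2, p3, p4⟩ := by
  obtain ⟨C0, hC0, D, hZ, hm⟩ := zeta_data hGK hL2K hNICE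
  obtain ⟨C, hC, h1⟩ := hN1 C0 hC0
  have h2 := hN2 C0 hC0 D
  have hssum : ∀ T b, 1 < T → ssum (xz T) (Rz T) b = PW (zg T) mr T b / Rz T := by
    intro T b _
    unfold ssum
    rw [PW_eq]
  refine ⟨C, hC, ?_, NZ_lim, ?_, ?_, _, rfl⟩
  · filter_upwards [eventually_gt_atTop 1] with T hT using Rz_pos hT
  · intro n b0 hb0 hb1
    filter_upwards [h1 D n b0 hb0 hb1, eventually_gt_atTop 1] with T h3 hT
    rw [hZ, hm] at h3
    have hR := Rz_pos hT
    have e : T * Real.log T / (2 * Real.pi) = Rz T := rfl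
    rw [e] at h3
    have e2 : ∑ i ∈ range n, (ssum (xz T) (Rz T) (b0 / 2 ^ i) - (1 / (b0 / 2 ^ i) + b0 / 2 ^ i / 6)) /
        (b0 / 2 ^ i) ^ 2 = (∑ i ∈ range n, (PW (zg T) mr T (b0 / 2 ^ i) -
        Rz T * (1 / (b0 / 2 ^ i) + b0 / 2 ^ i / 6)) / (b0 / 2 ^ i) ^ 2) / Rz T := by
      rw [Finset.sum_div]
      refine Finset.sum_congr rfl fun i _ => ?_
      rw [hssum T _ hT]
      field_simp
    rw [e2, div_le_iff₀ hR]
    exact h3
  · intro b hb hb12 η hη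
    filter_upwards [h2 b hb hb12 η hη, eventually_gt_atTop 1] with T h3 hT
    rw [hZ, hm] at h3
    have hR := Rz_pos hT
    rw [hssum T _ hT, le_div_iff₀ hR]
    exact h3

end Pool.Agent.H606.OS
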