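import Pool.Agent.H606.OS.P.FJ
import Pool.Agent.H606.OS.P.INTS
import Pool.Agent.H606.OS.P.FC
import Pool.Agent.H606.OS.P.PL
import Pool.Agent.H606.OS.P.KK
import Pool.Agent.H606.OS.P.GUE
import Pool.Agent.H606.OS.P.GK
import Pool.Agent.H606.OS.P.LP
import Pool.Agent.H606.OS.P.PB
import Pool.Agent.H606.OS.P.NICE
import Pool.Agent.H606.OS.P.PAR
import Pool.Agent.H606.OS.P.W1
import Pool.Agent.H606.OS.P.W2
import Pool.Agent.H606.OS.P.W3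
import Pool.Agent.H606.OS.P.W4
import Pool.Agent.H606.OS.P.W5
import Pool.Agent.H606.OS.P.N1W
import Pool.Agent.H606.OS.P.N2W
import Pool.Agent.H606.OS.P.PBW
import Pool.Agent.H606.OS.P.CR
import Pool.Agent.H606.OS.P.TL
import Pool.Agent.H606.OS.P.STEP
import Pool.Agent.H606.OS.P.N1G
import Pool.Agent.H606.OS.P.N2G
import Pool.Agent.H606.OS.P.NB
import Pool.Agent.H606.OS.P.UP
import Pool.Agent.H606.OS.P.LO
import Pool.Agent.H606.OS.P.KN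
import Pool.Agent.H606.OS.P.B0
import Pool.Agent.H606.OS.P.B1
import Pool.Agent.H606.OS.P.B2
import Pool.Agent.H606.OS.P.B3
import Pool.Agent.H606.OS.Z3

namespace Pool.Agent.H606.OS

theorem p_FJ : S_FJ := P.FJ.t_FJ
theorem p_INTS : S_INTS := P.INTS.t_INTS p_FJ
theorem p_FC : S_FC := P.FC.t_FC p_FJ
theorem p_PL : S_PL := P.PL.t_PL
theorem p_KK : S_KK := P.KK.t_KK
theorem p_GUE : S_GUE := P.GUE.t_GUE p_KK
theorem p_GK : S_GK := P.GK.t_GK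
theorem p_LP : S_LP := P.LP.t_LP p_FJ p_PL
theorem p_CWG : S_CWG := P.PB.t_CWG
theorem p_L2K : S_L2K := P.PB.t_L2K
theorem p_PB : S_PB := P.PB.t_PB p_L2K
theorem p_NICE : S_NICE := P.NICE.t_NICE p_FJ p_FC
theorem p_PAR : S_PAR := P.PAR.t_PAR p_FJ p_PL
theorem p_W1 : S_W1 := P.W1.t_W1 p_FJ p_FC p_NICE p_L2K
theorem p_W2 : S_W2 := P.W2.t_W2 p_INTS
theorem p_W3 : S_W3 := P.W3.t_W3 p_NICE p_W1 p_W2
theorem p_W4 : S_W4 := P.W4.t_W4 p_NICE p_W1 p_W2 p_W3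
theorem p_W5 : S_W5 := P.W5.t_W5 p_LP p_CWG
theorem p_N1W : S_N1W := P.N1W.t_N1W p_PAR p_W4 p_W5
theorem p_N2W : S_N2W := P.N2W.t_N2W p_NICE p_PAR p_W2
theorem p_PBW : S_PBW := P.PBW.t_PBW p_PB
theorem p_CR : S_CR := P.CR.t_CR
theorem p_TL : S_TL := P.TL.t_TL p_PBW p_CR
theorem p_STEP : S_STEP := P.STEP.t_STEP p_KK p_PBW p_CR
theorem p_N1G : S_N1G := P.N1G.t_N1G p_KK p_STEP p_TL p_N1W
theorem p_N2G : S_N2G := P.N2G.t_N2G p_KK p_STEP p_N2W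
theorem p_NB : S_NB := P.NB.t_NB p_KK
theorem p_UP : S_UP := P.UP.t_UP p_NB
theorem p_LO : S_LO := P.LO.t_LO
theorem p_KN : S_KN := P.KN.t_KN p_KK
theorem p_B0 : S_B0 := P.B0.t_B0 p_KK p_GUE p_KN
theorem p_B1 : S_B1 := P.B1.t_B1 p_KN p_B0 p_NB p_UP
theorem p_B2 : S_B2 := P.B2.t_B2 p_KK p_GUE p_LO
theorem p_B3 : S_B3 := P.B3.t_B3 p_KK p_GUE p_LO p_B2

end Pool.Agent.H606.OS
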