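import Pool.Agent.H606.OS.Fin
import Pool.Agent.H606.OS.All

/-! Uniformity and compactness for the pair counts. -/

open MeasureTheory Filter Topology Finset

namespace Pool.Agent.H606.OS

/-- normalised number of pairs with normalised difference in `(0, x]` -/
noncomputable def gp (T x : ℝ) : ℝ := (prs T (Set.Ioc 0 x) : ℝ) / Rz T

/-- normalised number of pairs with normalised difference in `[α, β]` -/
noncomputable def n2 (T α β : ℝ) : ℝ := (prs T (Set.Icc α β) : ℝ) / Rz T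

theorem prs_mono (T : ℝ) {S S' : Set ℝ} (h : S ⊆ S') : prs T S ≤ prs T S' := by
  rw [prs_eq, prs_eq]
  exact Set.ncard_le_ncard (fun q hq => h hq) (Set.toFinite _)

theorem prs_union_le (T : ℝ) (S S' : Set ℝ) : prs T (S ∪ S') ≤ prs T S + prs T S' := by
  rw [prs_eq, prs_eq, prs_eq]
  exact Set.ncard_union_le _ _

theorem prs_disj (T : ℝ) {S S' : Set ℝ} (h : Disjoint S S') :
    prs T (S ∪ S') = prs T S + prs T S' := by
  rw [prs_eq, prs_eq, prs_eq, ← Set.ncard_union_eq ?_ (Set.toFinite _) (Set.toFinite _)]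
  · rfl
  · rw [Set.disjoint_left]
    intro q h1 h2
    exact (Set.disjoint_left.1 h) h1 h2

theorem gp_mono {T : ℝ} (hT : 1 < T) {x y : ℝ} (h : x ≤ y) : gp T x ≤ gp T y := by
  unfold gp
  have := Rz_pos hT
  have h2 : (prs T (Set.Ioc 0 x) : ℝ) ≤ prs T (Set.Ioc 0 y) := by
    exact_mod_cast prs_mono T (Set.Ioc_subset_Ioc_right h)
  gcongr

theorem gp_nonneg {T : ℝ} (hT : 1 < T) (x : ℝ) : 0 ≤ gp T x := by
  unfold gp
  have := Rz_pos hT
  positivity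

theorem n2_ge {T : ℝ} (hT : 1 < T) {α β : ℝ} : gp T β - gp T α ≤ n2 T α β := by
  unfold gp n2
  have hR := Rz_pos hT
  rw [← sub_div, div_le_div_iff_of_pos_right hR]
  have h1 : prs T (Set.Ioc 0 β) ≤ prs T (Set.Ioc 0 α) + prs T (Set.Icc α β) := by
    refine (prs_mono T ?_).trans (prs_union_le T _ _)
    intro x hx
    rcases le_total x α with h | h
    · exact Or.inl ⟨hx.1, h⟩
    · exact Or.inr ⟨h, hx.2⟩
  have h2 : (prs T (Set.Ioc 0 β) : ℝ) ≤ prs T (Set.Ioc 0 α) + prs T (Set.Icc α β) := by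
    exact_mod_cast h1
  linarith

theorem n2_le {T : ℝ} (hT : 1 < T) {α' α β : ℝ} (hα : 0 < α) (h : α' < α) (hβ : α' ≤ β) :
    n2 T α β ≤ gp T β - gp T α' := by
  unfold gp n2
  have hR := Rz_pos hT
  rw [← sub_div, div_le_div_iff_of_pos_right hR]
  have hd : Disjoint (Set.Ioc 0 α') (Set.Icc α β) := by
    rw [Set.disjoint_left]
    intro x h1 h2
    exact absurd (h1.2.trans_lt h) (not_lt.2 h2.1)
  have h1 : prs T (Set.Ioc 0 α') + prs T (Set.Icc α β) ≤ prs T (Set.Ioc 0 β) := by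
    rw [← prs_disj T hd]
    refine prs_mono T ?_
    rintro x (hx | hx)
    · exact ⟨hx.1, hx.2.trans hβ⟩
    · exact ⟨hα.trans_le hx.1, hx.2⟩
  have h2 : (prs T (Set.Ioc 0 α') : ℝ) + prs T (Set.Icc α β) ≤ prs T (Set.Ioc 0 β) := by
    exact_mod_cast h1
  linarith

/-- the limit of `gp` -/
noncomputable def Gi (x : ℝ) : ℝ := ∫ u in (0 : ℝ)..x, Fg u

theorem Gi_sub (α β : ℝ) : Gi β - Gi α = ∫ u in α..β, Fg u :=
  intervalIntegral.integral_interval_sub_left (P.UP.Fg_ii _ _) (P.UP.Fg_ii _ _)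

theorem Gi_sub_nonneg {α β : ℝ} (h : α ≤ β) : 0 ≤ Gi β - Gi α := by
  rw [Gi_sub]
  exact intervalIntegral.integral_nonneg h fun u _ => P.UP.Fg_nonneg u

theorem Gi_sub_le {α β : ℝ} (h : α ≤ β) : Gi β - Gi α ≤ β - α := by
  rw [Gi_sub]
  have h1 : (∫ u in α..β, Fg u) ≤ ∫ _u in α..β, (1 : ℝ) :=
    intervalIntegral.integral_mono_on h (P.UP.Fg_ii _ _) intervalIntegrable_const fun u _ => P.UP.Fg_le u
  simpa using h1

theorem Gi_zero : Gi 0 = 0 := by
  unfold Gi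
  simp

/-- monotone functions converge uniformly to a Lipschitz limit -/
theorem unif {l : Filter ℝ} (hl : l ≤ atTop)
    (h : ∀ β : ℝ, 0 < β → Tendsto (fun T => gp T β) l (𝓝 (Gi β))) {M η : ℝ} (hη : 0 < η) :
    ∀ᶠ T in l, 1 < T ∧ ∀ x, 0 ≤ x → x ≤ M → |gp T x - Gi x| ≤ 2 * η := by
  have h1 : ∀ᶠ T in l, ∀ j ∈ Finset.range (⌊M / η⌋₊ + 1),
      |gp T ((j + 1) * η) - Gi ((j + 1) * η)| ≤ η := by
    rw [Filter.eventually_all_finset]
    intro j _
    have h2 := h ((j + 1) * η) (by positivity)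
    rw [Metric.tendsto_nhds] at h2
    filter_upwards [h2 η hη] with T h3
    rw [Real.dist_eq] at h3
    exact h3.le
  filter_upwards [h1, (eventually_gt_atTop 1).filter_mono hl] with T h2 hT
  refine ⟨hT, fun x hx0 hxM => ?_⟩
  obtain ⟨j, hj⟩ : ∃ j : ℕ, j = ⌊x / η⌋₊ := ⟨_, rfl⟩
  have hj1 : (j : ℝ) * η ≤ x := by
    rw [← le_div_iff₀ hη, hj]
    exact Nat.floor_le (by positivity)
  have hj2 : x < (j + 1) * η := by
    rw [← div_lt_iff₀ hη, hj]
    exact Nat.lt_floor_add_one _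
  have hjM : j ≤ ⌊M / η⌋₊ := by
    rw [hj]
    exact Nat.floor_le_floor (by gcongr)
  have hup := h2 j (Finset.mem_range.2 (by omega))
  rw [abs_le] at hup
  have a1 := gp_mono hT hj2.le
  have a2 := Gi_sub_le hj2.le
  rw [abs_le]
  constructor
  · rcases Nat.eq_zero_or_pos j with h0 | h0
    · have b1 := gp_nonneg hT x
      have b2 := Gi_sub_le hx0
      rw [Gi_zero] at b2
      rw [h0] at hj2
      push_cast at hj2
      linarith
    · obtain ⟨i, rfl⟩ : ∃ i, j = i + 1 := ⟨j - 1, by omega⟩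
      have hlo := h2 i (Finset.mem_range.2 (by omega))
      rw [abs_le] at hlo
      push_cast at hj1 hj2
      have b1 := gp_mono hT hj1
      have b2 := Gi_sub_le hj1
      nlinarith
  · nlinarith

theorem unif2 {l : Filter ℝ} (hl : l ≤ atTop)
    (h : ∀ β : ℝ, 0 < β → Tendsto (fun T => gp T β) l (𝓝 (Gi β))) {ε : ℝ} (hε : 0 < ε) :
    ∀ᶠ T in l, ∀ α β : ℝ, 0 < α → α < β → β ≤ 1 / ε → |n2 T α β - ∫ u in α..β, Fg u| ≤ ε := by
  filter_upwards [unif hl h (M := 1 / ε) (η := ε / 6) (by positivity)] with T hT α β hα hαβ hβ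
  obtain ⟨hT1, hT⟩ := hT
  have hβ0 : 0 < β := hα.trans hαβ
  have c1 := hT β hβ0.le hβ
  have c2 := hT α hα.le (hαβ.le.trans hβ)
  obtain ⟨α', hα'⟩ : ∃ α', α' = max (α - ε / 6) 0 := ⟨_, rfl⟩
  have d0 : 0 ≤ α' := by rw [hα']; exact le_max_right _ _
  have d1 : α' < α := by
    rw [hα']
    exact max_lt (by linarith) hα
  have d2 : α - α' ≤ ε / 6 := by
    have : α - ε / 6 ≤ α' := by rw [hα']; exact le_max_left _ _
    linarith
  have c3 := hT α' d0 (d1.le.trans (hαβ.le.trans hβ))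
  have e1 := n2_ge hT1 (α := α) (β := β)
  have e2 := n2_le hT1 hα d1 (d1.le.trans hαβ.le) (β := β)
  have e3 := Gi_sub_le d1.le
  rw [← Gi_sub]
  rw [abs_le] at c1 c2 c3 ⊢
  constructor <;> linarith

/-- compactness -/
theorem cpt (H : ∀ l : Filter ℝ, l ≤ atTop →
    ((∀ α β : ℝ, 0 < α → α < β → ∀ ε : ℝ, 0 < ε → ∀ᶠ T in l, n2 T α β ≤ (∫ u in α..β, Fg u) + ε) ∨
      (∀ α β : ℝ, 0 < α → α < β → ∀ ε : ℝ, 0 < ε → ∀ᶠ T in l, (∫ u in α..β, Fg u) - ε ≤ n2 T α β)) →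
    (∀ β : ℝ, 0 < β → Tendsto (fun T => gp T β) l (𝓝 (Gi β))) ∧
      Tendsto (fun T => (prs T {0} : ℝ) / Rz T) l (𝓝 1) ∧
      Tendsto (fun T => (Nsc T : ℝ) / SG.NZ T) l (𝓝 1)) :
    ∀ ε : ℝ, 0 < ε → ∃ δ : ℝ, 0 < δ ∧ ∀ T : ℝ, 1 / δ ≤ T →
      ((∀ α β : ℝ, δ ≤ α → α < β → β ≤ 1 / δ → n2 T α β ≤ (1 + δ) * (∫ u in α..β, Fg u) + δ) ∨
        (∀ α β : ℝ, δ ≤ α → α < β → β ≤ 1 / δ → (1 - δ) * (∫ u in α..β, Fg u) - δ ≤ n2 T α β)) →
      (∀ α β : ℝ, 0 < α → α < β → β ≤ 1 / ε → |n2 T α β - ∫ u in α..β, Fg u| ≤ ε) ∧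
        (prs T {0} : ℝ) / Rz T ≤ 1 + ε ∧ 1 - ε ≤ (Nsc T : ℝ) / SG.NZ T := by
  intro ε hε
  by_contra hcon
  push Not at hcon
  choose τ h1 h2 h3 using fun k : ℕ => hcon (1 / (k + 1)) (by positivity)
  obtain ⟨HU, hHU⟩ : ∃ HU : ℕ → Prop, HU = fun k : ℕ => ∀ α β : ℝ, 1 / ((k : ℝ) + 1) ≤ α → α < β →
    β ≤ 1 / (1 / ((k : ℝ) + 1)) → n2 (τ k) α β ≤ (1 + 1 / ((k : ℝ) + 1)) * (∫ u in α..β, Fg u) +
      1 / ((k : ℝ) + 1) := ⟨_, rfl⟩
  obtain ⟨HL, hHL⟩ : ∃ HL : ℕ → Prop, HL = fun k : ℕ => ∀ α β : ℝ, 1 / ((k : ℝ) + 1) ≤ α → α < β →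
    β ≤ 1 / (1 / ((k : ℝ) + 1)) → (1 - 1 / ((k : ℝ) + 1)) * (∫ u in α..β, Fg u) -
      1 / ((k : ℝ) + 1) ≤ n2 (τ k) α β := ⟨_, rfl⟩
  have hτ : Tendsto τ atTop atTop := by
    refine tendsto_atTop_mono h1 ?_
    have : (fun k : ℕ => 1 / (1 / ((k : ℝ) + 1))) = fun k : ℕ => (k : ℝ) + 1 := by
      funext k
      rw [one_div_one_div]
    rw [this]
    exact tendsto_atTop_add_const_right _ _ tendsto_natCast_atTop_atTop
  have hgood : ∀ s : Set ℕ, ((∀ k ∈ s, HU k) ∨ (∀ k ∈ s, HL k)) → ∀ᶠ k in atTop ⊓ 𝓟 s, False := by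
    intro s hs
    have hl : Filter.map τ (atTop ⊓ 𝓟 s) ≤ atTop := (Filter.map_mono inf_le_left).trans hτ
    have hk : ∀ p : ℝ, 0 < p → ∀ᶠ k : ℕ in atTop ⊓ 𝓟 s, 1 / ((k : ℝ) + 1) ≤ p := by
      intro p hp
      have := (tendsto_one_div_add_atTop_nhds_zero_nat (𝕜 := ℝ)).eventually (ge_mem_nhds hp)
      exact this.filter_mono inf_le_left
    have hk2 : ∀ p : ℝ, ∀ᶠ k : ℕ in atTop ⊓ 𝓟 s, p ≤ 1 / (1 / ((k : ℝ) + 1)) := by
      intro p
      have : ∀ᶠ k : ℕ in atTop, p ≤ k := tendsto_natCast_atTop_atTop.eventually (eventually_ge_atTop p)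
      refine (this.filter_mono inf_le_left).mono fun k hk => ?_
      rw [one_div_one_div]
      linarith
    have hks : ∀ᶠ k : ℕ in atTop ⊓ 𝓟 s, k ∈ s :=
      Filter.Eventually.filter_mono inf_le_right (Filter.mem_principal_self s)
    have hH : ((∀ α β : ℝ, 0 < α → α < β → ∀ ε : ℝ, 0 < ε → ∀ᶠ T in Filter.map τ (atTop ⊓ 𝓟 s),
          n2 T α β ≤ (∫ u in α..β, Fg u) + ε) ∨
        (∀ α β : ℝ, 0 < α → α < β → ∀ ε : ℝ, 0 < ε → ∀ᶠ T in Filter.map τ (atTop ⊓ 𝓟 s),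
          (∫ u in α..β, Fg u) - ε ≤ n2 T α β)) := by
      rcases hs with hs | hs
      · left
        intro α β hα hαβ e he
        have hI : 0 ≤ ∫ u in α..β, Fg u := by
          rw [← Gi_sub]
          exact Gi_sub_nonneg hαβ.le
        rw [Filter.eventually_map]
        filter_upwards [hk α hα, hk2 β, hks, hk (e / ((∫ u in α..β, Fg u) + 1)) (by positivity)]
          with k k1 k2 k3 k4
        have := hs k k3
        rw [hHU] at this
        have h5 := this α β k1 hαβ k2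
        rw [le_div_iff₀ (by positivity)] at k4
        nlinarith
      · right
        intro α β hα hαβ e he
        have hI : 0 ≤ ∫ u in α..β, Fg u := by
          rw [← Gi_sub]
          exact Gi_sub_nonneg hαβ.le
        rw [Filter.eventually_map]
        filter_upwards [hk α hα, hk2 β, hks, hk (e / ((∫ u in α..β, Fg u) + 1)) (by positivity)]
          with k k1 k2 k3 k4
        have := hs k k3
        rw [hHL] at this
        have h5 := this α β k1 hαβ k2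
        rw [le_div_iff₀ (by positivity)] at k4
        nlinarith
    obtain ⟨g1, g2, g3⟩ := H _ hl hH
    have e1 := unif2 hl g1 hε
    have e2 := g2.eventually (ge_mem_nhds (show (1 : ℝ) < 1 + ε by linarith))
    have e3 := g3.eventually (le_mem_nhds (show 1 - ε < (1 : ℝ) by linarith))
    rw [Filter.eventually_map] at e1 e2 e3
    filter_upwards [e1, e2, e3] with k f1 f2 f3
    exact absurd f3 (not_le.2 (h3 k f1 f2))
  have hA := hgood {k | HU k} (Or.inl fun k hk => hk)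
  have hB := hgood {k | HL k} (Or.inr fun k hk => hk)
  rw [Filter.eventually_inf_principal] at hA hB
  obtain ⟨k, kA, kB⟩ := (hA.and hB).exists
  rcases h2 k with h | h
  · exact kA (by show HU k; rw [hHU]; exact h)
  · exact kB (by show HL k; rw [hHL]; exact h)

end Pool.Agent.H606.OS
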