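import Pool.Agent.H606.OS.Stm

/-!
# Project OS, second part (helper606): finite windows

A worker on the task `X` proves `theorem t_X (h : S_Y) ... : S_X` in his own directory.
-/

open MeasureTheory Filter Topology Finset

namespace Pool.Agent.H606.OS

variable {C1 : ℝ}

/-- the lower half in the window `[A, B]` with the relative loss `δ` -/
def LoW (D : Cg C1) (l : Filter ℝ) (A B δ : ℝ) : Prop := ∀ α β : ℝ, A ≤ α → α < β → β ≤ B →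
  ∀ ε : ℝ, 0 < ε → ∀ᶠ T in l, (1 - δ) * (∫ u in α..β, Fg u) - ε ≤ pc (D.x T) (D.R T) α β

/-- TASK LOW.  Sums over pairs from the lower half in a window, with loss.
Proof.  As for `S_LO` (its proof is in Pool/Agent/H606/OS/P/LO.lean), simpler: there is no `κ` and no tail.  On a piece
`[p, q)` of a fine partition of `[A, B]`, the sum of `K` over the pairs with difference in `[p', q']`, `p < p' < q' < q` (`p'`, `q'`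
close to `p`, `q`; the closed intervals of different pieces are disjoint), is at least
`R inf_{[p,q]} K ((1 - δ) ∫_{p'}^{q'} Fg - ε'')`.  The pairs left out contribute `≥ 0` (`K ≥ 0` on `[0, ∞)`). -/
def S_LOW : Prop := ∀ (C1 : ℝ) (D : Cg C1) (l : Filter ℝ), l ≤ atTop → ∀ A B δ : ℝ, 0 < A → A < B → 0 ≤ δ → δ ≤ 1 →
  LoW D l A B δ → ∀ K : ℝ → ℝ, Continuous K → (∀ u, 0 ≤ u → 0 ≤ K u) → ∀ ε : ℝ, 0 < ε → ∀ᶠ T in l,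
    (1 - δ) * (∫ u in A..B, K u * Fg u) - ε ≤ ks (D.x T) (D.R T) A K

/-- TASK DGW.  Few coincidences from the lower half in a window.
Proof.  As for `S_B2` (its proof is in Pool/Agent/H606/OS/P/B2.lean).  `n1` with `n = 1`, `b0 = b`: `ssum b ≤ 1/b + b/6 + 2 C1 b²`,
`ssum b = (2/3) dg + 2 (1/R) ∑_{x_1 > x_2} kk(2πb(x_1-x_2)) ≥ (2/3) dg + 2 ks A kk(2πb·)
≥ (2/3) dg + 2 (1-δ) ∫_A^B kk(2πbu) Fg - ε` (`S_LOW`), and `1/b + b/6 = 2/3 + 2 ∫_0^∞ kk(2πbu) Fg` (`S_GUE`).  So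
`(2/3)(dg - 1) ≤ 2 ∫_0^A kk Fg + 2 ∫_B^∞ kk Fg + 2 δ ∫_0^∞ kk Fg + 2 C1 b² + ε`, and `kk ≤ 2/3`, `0 ≤ Fg u ≤ (πu)²/3`
(`1 - (sin x/x)² ≤ x²/3`; any constant in place of `1/3` will do, for instance from `sin x ≥ x - x³/6`), so the first integral is
`≤ C A³`; `Fg ≤ 1` and `kk x ≤ C ka x ≤ C/x²` (`S_KK`), so the second one is `≤ C/(b² B)`; the third one is `≤ 1/(2b)` by `S_GUE`
(`2 ∫ = 1/b + b/6 - 2/3 ≤ 1/b`). -/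
def S_DGW : Prop := ∀ C1 : ℝ, 0 < C1 → ∃ C : ℝ, 0 < C ∧ ∀ (D : Cg C1) (l : Filter ℝ), l ≤ atTop →
  ∀ A B δ b : ℝ, 0 < A → A < B → 0 ≤ δ → δ ≤ 1 → 0 < b → b ≤ 1 / 12 → LoW D l A B δ → ∀ ε : ℝ, 0 < ε → ∀ᶠ T in l,
    dg (D.x T) (D.R T) ≤ 1 + C * (A ^ 3 + b ^ 2 + 1 / (b ^ 2 * B) + δ / b) + ε

/-- TASK OPT.  The choice of `b`.
Proof.  If `B ≤ 12⁴` or `δ ≥ 12⁻³` then the right side is at least `1` for `C ≥ 144` (`B ^ (-1/2) ≥ 1/144`, `δ ^ (2/3) ≥ 1/144`).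
Otherwise `b = max (B ^ (-1/4)) (δ ^ (1/3)) ≤ 1/12`: `b² ≤ B ^ (-1/2) + δ ^ (2/3)`, `1/(b² B) ≤ B ^ (-1/2)`, `δ / b ≤ δ ^ (2/3)`. -/
def S_OPT : Prop := ∀ C : ℝ, 0 < C → ∃ C' : ℝ, 0 < C' ∧ ∀ A B δ : ℝ, 0 < A → A < B → 0 ≤ δ → δ ≤ 1 →
  1 ≤ C' * (A ^ 3 + B ^ (-(1 / 2 : ℝ)) + δ ^ (2 / 3 : ℝ)) ∨
  ∃ b : ℝ, 0 < b ∧ b ≤ 1 / 12 ∧
    C * (A ^ 3 + b ^ 2 + 1 / (b ^ 2 * B) + δ / b) ≤ C' * (A ^ 3 + B ^ (-(1 / 2 : ℝ)) + δ ^ (2 / 3 : ℝ))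

end Pool.Agent.H606.OS
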