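import Pool.Agent.H606.OS.Cpt
import Pool.Agent.H606.OS.Stm2

/-! The proportion of the simple zeros on the line from the number of coincidences. -/

open MeasureTheory Filter Topology Finset

namespace Pool.Agent.H606.OS

theorem nsc_ge {l : Filter ℝ} (hl : l ≤ atTop) {c : ℝ} (hc : 0 ≤ c)
    (h : ∀ ε : ℝ, 0 < ε → ∀ᶠ T in l, (prs T {0} : ℝ) / Rz T ≤ 1 + c + ε) :
    ∀ ε : ℝ, 0 < ε → ∀ᶠ T in l, 1 - c - ε ≤ (Nsc T : ℝ) / SG.NZ T := by
  intro ε hε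
  have hN : Tendsto (fun T : ℝ => (SG.NZ T : ℝ) / Rz T) l (𝓝 1) := NZ_lim.mono_left hl
  have hR : Tendsto Rz atTop atTop := by
    have : Tendsto (fun T : ℝ => T * Real.log T) atTop atTop :=
      tendsto_id.atTop_mul_atTop₀ Real.tendsto_log_atTop
    exact this.atTop_div_const (by positivity)
  have hc1 : Tendsto (fun T => (SG.NZ 1 : ℝ) / Rz T) l (𝓝 0) :=
    (tendsto_const_nhds.div_atTop hR).mono_left hl
  obtain ⟨η, hη⟩ : ∃ η : ℝ, η = ε / (3 + c + ε) := ⟨_, rfl⟩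
  have hη0 : 0 < η := by rw [hη]; positivity
  have hη1 : η * (3 + c + ε) = ε := by
    rw [hη]
    field_simp
  have hη2 : η < 1 := by
    rw [hη, div_lt_one (by positivity)]
    linarith
  filter_upwards [h η hη0, hN.eventually (lt_mem_nhds (show 1 - η < (1 : ℝ) by linarith)),
    hc1.eventually (gt_mem_nhds hη0), (eventually_gt_atTop 1).filter_mono hl] with T h1 h2 h3 hT
  have hRp := Rz_pos hT
  have hNp : 0 < (SG.NZ T : ℝ) := by
    have h4 : 0 < (SG.NZ T : ℝ) / Rz T := by linarith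
    have := mul_pos h4 hRp
    rwa [div_mul_cancel₀ _ hRp.ne'] at this
  have h5 := coinc hT
  rw [div_le_iff₀ hRp] at h1
  rw [lt_div_iff₀ hRp] at h2
  rw [div_lt_iff₀ hRp] at h3
  rw [le_div_iff₀ hNp]
  have h6 : 0 < 1 + c + ε := by positivity
  have h7 : (1 + c + 2 * η) * Rz T ≤ (1 + c + ε) * SG.NZ T := by
    have h8 : (1 + c + ε) * ((1 - η) * Rz T) ≤ (1 + c + ε) * SG.NZ T :=
      mul_le_mul_of_nonneg_left h2.le h6.le
    have h9 : (1 + c + 2 * η) * Rz T ≤ (1 + c + ε) * ((1 - η) * Rz T) := by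
      rw [← mul_assoc]
      apply mul_le_mul_of_nonneg_right _ hRp.le
      nlinarith
    exact h9.trans h8
  nlinarith

/-- explicit dependence on the window -/
theorem prop_ge (hDGW : S_DGW) (hOPT : S_OPT) {C1 : ℝ} (hC1 : 0 < C1) : ∃ C : ℝ, 0 < C ∧
    ∀ D : Cg C1, (∀ T, dg (D.x T) (D.R T) = (prs T {0} : ℝ) / Rz T) → ∀ l : Filter ℝ, l ≤ atTop →
    ∀ A B δ : ℝ, 0 < A → A < B → 0 ≤ δ → δ ≤ 1 → LoW D l A B δ → ∀ ε : ℝ, 0 < ε → ∀ᶠ T in l,
      1 - C * (A ^ 3 + B ^ (-(1 / 2 : ℝ)) + δ ^ (2 / 3 : ℝ)) - ε ≤ (Nsc T : ℝ) / SG.NZ T := by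
  obtain ⟨C2, hC2, hD⟩ := hDGW C1 hC1
  obtain ⟨C, hC, hO⟩ := hOPT C2 hC2
  refine ⟨C, hC, fun D hdg l hl A B δ hA hAB hδ hδ1 hL => ?_⟩
  have hB : 0 < B := hA.trans hAB
  have hc : 0 ≤ C * (A ^ 3 + B ^ (-(1 / 2 : ℝ)) + δ ^ (2 / 3 : ℝ)) := by positivity
  rcases hO A B δ hA hAB hδ hδ1 with h | ⟨b, hb, hb12, h⟩
  · intro ε hε
    refine Filter.Eventually.of_forall fun T => ?_
    have : 0 ≤ (Nsc T : ℝ) / SG.NZ T := by positivity
    linarith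
  · refine nsc_ge hl hc fun ε hε => ?_
    filter_upwards [hD D l hl A B δ b hA hAB hδ hδ1 hb hb12 hL ε hε] with T h1
    rw [hdg] at h1
    linarith

end Pool.Agent.H606.OS
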