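import Pool.Agent.H606.OS.Z3

/-! From configurations to the ordinates of zeta. -/

open MeasureTheory Filter Topology Finset

namespace Pool.Agent.H606.OS

/-- the number of ordered pairs of ordinates in `(0, T]` with normalised difference in `S` -/
noncomputable def prs (T : ℝ) (S : Set ℝ) : ℕ :=
  {q : ℕ × ℕ | (1 ≤ q.1 ∧ SG.ord q.1 ≤ T) ∧ (1 ≤ q.2 ∧ SG.ord q.2 ≤ T) ∧
    (SG.ord q.1 - SG.ord q.2) * Real.log T / (2 * Real.pi) ∈ S}.ncard

theorem prs_eq (T : ℝ) (S : Set ℝ) : prs T S =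
    {q : Fin (SG.NZ T) × Fin (SG.NZ T) | xz T q.1 - xz T q.2 ∈ S}.ncard := by
  unfold prs
  have hinj : Function.Injective (fun q : Fin (SG.NZ T) × Fin (SG.NZ T) =>
      (((q.1 : ℕ) + 1, (q.2 : ℕ) + 1) : ℕ × ℕ)) := by
    intro q q' h
    simp only [Prod.mk.injEq, add_left_inj] at h
    exact Prod.ext (Fin.ext h.1) (Fin.ext h.2)
  rw [← Set.ncard_image_of_injective _ hinj]
  congr 1
  ext q
  simp only [Set.mem_image, Set.mem_ofPred_eq, Prod.exists]
  constructor
  · rintro ⟨⟨h1, h2⟩, ⟨h3, h4⟩, h5⟩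
    rw [SG.ord_le_iff h1] at h2
    rw [SG.ord_le_iff h3] at h4
    refine ⟨⟨q.1 - 1, by omega⟩, ⟨q.2 - 1, by omega⟩, ?_, ?_⟩
    · unfold xz
      simp only
      rw [Nat.sub_add_cancel h1, Nat.sub_add_cancel h3, ← sub_mul, ← mul_div_assoc]
      exact h5
    · simp only
      rw [Nat.sub_add_cancel h1, Nat.sub_add_cancel h3]
  · rintro ⟨j, k, h, rfl⟩
    simp only
    refine ⟨⟨by omega, (SG.ord_le_iff (by omega) _).2 (by omega)⟩,
      ⟨by omega, (SG.ord_le_iff (by omega) _).2 (by omega)⟩, ?_⟩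
    unfold xz at h
    rw [← sub_mul, ← mul_div_assoc] at h
    exact h

theorem dg_eq (T : ℝ) : dg (xz T) (Rz T) = (prs T {0} : ℝ) / Rz T := by
  unfold dg
  rw [prs_eq]
  congr 3
  ext q
  simp only [Set.mem_ofPred_eq, Set.mem_singleton_iff]
  rw [sub_eq_zero]

theorem pc_eq (T α β : ℝ) : pc (xz T) (Rz T) α β = (prs T (Set.Icc α β) : ℝ) / Rz T := by
  unfold pc
  rw [prs_eq]

theorem p0_eq (T β : ℝ) : p0 (xz T) (Rz T) β = (prs T (Set.Ioc 0 β) : ℝ) / Rz T := by
  unfold p0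
  rw [prs_eq]

/-- the number of simple zeros on the critical line with ordinate in `(0, T]` -/
noncomputable def Nsc (T : ℝ) : ℕ :=
  {s : ℂ | riemannZeta s = 0 ∧ s.re = 1 / 2 ∧ 0 < s.im ∧ s.im ≤ T ∧ SG.zmult s = 1}.ncard

theorem mr_eq (s : ℂ) : mr s = (SG.zmult s : ℝ) := rfl

theorem mr_ge {T : ℝ} {s : ℂ} (hs : s ∈ zg T) : 1 ≤ mr s := by
  rw [mem_zg] at hs
  rw [mr_eq]
  exact_mod_cast SG.zmult_pos hs.2.2.2.1 hs.1

theorem coinc {T : ℝ} (hT : 1 < T) : 2 * (SG.NZ T : ℝ) ≤ (prs T {0} : ℝ) + Nsc T + SG.NZ 1 := by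
  classical
  have hlog : 0 < Real.log T := Real.log_pos hT
  have hpi := Real.pi_pos
  -- the number of the coincident pairs
  have h1 : (prs T {0} : ℝ) = ∑ s ∈ zg T, mr s * ∑ z ∈ (zg T).filter (fun z => z.im = s.im), mr z := by
    rw [prs_eq]
    have e1 : {q : Fin (SG.NZ T) × Fin (SG.NZ T) | xz T q.1 - xz T q.2 ∈ ({0} : Set ℝ)} =
        ((Finset.univ.filter fun q : Fin (SG.NZ T) × Fin (SG.NZ T) =>
          SG.ord ((q.1 : ℕ) + 1) = SG.ord ((q.2 : ℕ) + 1) : Finset _) : Set _) := by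
      ext q
      simp only [Set.mem_ofPred_eq, Set.mem_singleton_iff, Finset.coe_filter, Finset.mem_univ,
        true_and]
      unfold xz
      rw [← sub_mul, mul_eq_zero, sub_eq_zero]
      constructor
      · rintro (h | h)
        · exact h
        · exfalso
          have : 0 < Real.log T / (2 * Real.pi) := by positivity
          linarith
      · intro h; exact Or.inl h
    rw [e1, Set.ncard_coe_finset, Finset.card_filter, ← Finset.univ_product_univ,
      Finset.sum_product]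
    push_cast
    have e2 : ∀ j : Fin (SG.NZ T), (∑ k : Fin (SG.NZ T),
        if SG.ord ((j : ℕ) + 1) = SG.ord ((k : ℕ) + 1) then (1 : ℝ) else 0) =
        (fun x => ∑ z ∈ zg T, mr z * (if x = z.im then (1 : ℝ) else 0)) (SG.ord ((j : ℕ) + 1)) :=
      fun j => fin_sum T (fun y => if SG.ord ((j : ℕ) + 1) = y then (1 : ℝ) else 0)
    rw [Finset.sum_congr rfl fun j _ => e2 j, fin_sum T
      (fun x => ∑ z ∈ zg T, mr z * (if x = z.im then (1 : ℝ) else 0))]
    refine Finset.sum_congr rfl fun s _ => ?_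
    congr 1
    rw [Finset.sum_filter]
    refine Finset.sum_congr rfl fun z _ => ?_
    by_cases h : s.im = z.im
    · rw [if_pos h, if_pos h.symm, mul_one]
    · rw [if_neg h, if_neg (fun h' => h h'.symm), mul_zero]
  -- the good zeros
  set G := (zg T).filter (fun s => s.re = 1 / 2 ∧ SG.zmult s = 1) with hG
  have h2 : (Nsc T : ℝ) = ∑ s ∈ G, mr s := by
    have e1 : {s : ℂ | riemannZeta s = 0 ∧ s.re = 1 / 2 ∧ 0 < s.im ∧ s.im ≤ T ∧ SG.zmult s = 1} =
        (G : Set ℂ) := by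
      ext s
      rw [hG, Finset.coe_filter, Set.mem_ofPred_eq, Set.mem_ofPred_eq, mem_zg]
      constructor
      · rintro ⟨a1, a2, a3, a4, a5⟩
        exact ⟨⟨a1, by rw [a2]; norm_num, by rw [a2]; norm_num, a3, a4⟩, a2, a5⟩
      · rintro ⟨⟨a1, _, _, a4, a5⟩, a6, a7⟩
        exact ⟨a1, a6, a4, a5, a7⟩
    unfold Nsc
    rw [e1, Set.ncard_coe_finset]
    rw [Finset.sum_congr rfl (g := fun _ => (1 : ℝ))]
    · simp
    · intro s hs
      rw [hG, Finset.mem_filter] at hs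
      rw [mr_eq, hs.2.2]
      norm_num
  have h3 : ∀ s ∈ zg T, 1 ≤ ∑ z ∈ (zg T).filter (fun z => z.im = s.im), mr z := by
    intro s hs
    refine (mr_ge hs).trans ?_
    exact Finset.single_le_sum (f := fun z => mr z) (fun z _ => mr_nonneg z)
      (Finset.mem_filter.2 ⟨hs, rfl⟩)
  have h4 : ∀ s ∈ zg T, s ∉ G → 1 ≤ s.im → 2 ≤ ∑ z ∈ (zg T).filter (fun z => z.im = s.im), mr z := by
    intro s hs hsG him
    have hs' := hs
    rw [mem_zg] at hs'
    obtain ⟨a1, a2, a3, a4, a5⟩ := hs'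
    by_cases hm : SG.zmult s = 1
    · have hre : s.re ≠ 1 / 2 := by
        intro h
        exact hsG (Finset.mem_filter.2 ⟨hs, h, hm⟩)
      have b1 := SG.zero_reflect a1 a2 a3 him
      obtain ⟨z, hz⟩ : ∃ z : ℂ, z = 1 - (starRingEnd ℂ) s := ⟨_, rfl⟩
      rw [← hz] at b1
      have zre : z.re = 1 - s.re := by rw [hz]; simp
      have zim : z.im = s.im := by rw [hz]; simp
      have hzm : z ∈ zg T := by
        rw [mem_zg]
        exact ⟨b1, by linarith, by linarith, by linarith, by linarith⟩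
      have hne : s ≠ z := by
        intro h
        apply hre
        have := congrArg Complex.re h
        rw [zre] at this
        linarith
      have hsub : ({s, z} : Finset ℂ) ⊆ (zg T).filter (fun z => z.im = s.im) := by
        intro w hw
        rw [Finset.mem_insert, Finset.mem_singleton] at hw
        rw [Finset.mem_filter]
        rcases hw with rfl | rfl
        · exact ⟨hs, rfl⟩
        · exact ⟨hzm, zim⟩
      have h8 : ∑ w ∈ ({s, z} : Finset ℂ), mr w ≤ ∑ w ∈ (zg T).filter (fun z => z.im = s.im), mr w :=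
        Finset.sum_le_sum_of_subset_of_nonneg hsub fun _ _ _ => mr_nonneg _
      rw [Finset.sum_pair hne] at h8
      have h9 := mr_ge hs
      have h10 := mr_ge hzm
      linarith
    · have h5 : 2 ≤ SG.zmult s := by
        have := SG.zmult_pos a4 a1
        omega
      have h6 : (2 : ℝ) ≤ mr s := by rw [mr_eq]; exact_mod_cast h5
      refine h6.trans ?_
      exact Finset.single_le_sum (f := fun z => mr z) (fun z _ => mr_nonneg z)
        (Finset.mem_filter.2 ⟨hs, rfl⟩)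
  have h5 : ∀ s ∈ zg T, 2 * mr s - (if s ∈ G then mr s else 0) - (if s.im ≤ 1 then mr s else 0) ≤
      mr s * ∑ z ∈ (zg T).filter (fun z => z.im = s.im), mr z := by
    intro s hs
    have hm0 := mr_nonneg s
    have k3 := mul_le_mul_of_nonneg_left (h3 s hs) hm0
    split_ifs with h h' h'
    · linarith
    · linarith
    · linarith
    · have := mul_le_mul_of_nonneg_left (h4 s hs h (not_le.1 h').le) hm0
      linarith
  have h6 := Finset.sum_le_sum h5
  rw [← h1, Finset.sum_sub_distrib, Finset.sum_sub_distrib, ← Finset.mul_sum, sum_zg,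
    ← Finset.sum_filter, ← Finset.sum_filter] at h6
  have h8 : (zg T).filter (fun s => s.im ≤ 1) = zg 1 := by
    ext s
    rw [Finset.mem_filter]
    exact (zg_coh 1 T hT.le s).symm
  rw [h8, sum_zg] at h6
  have h7 : (zg T).filter (fun s => s ∈ G) = G := by
    ext s
    rw [Finset.mem_filter]
    constructor
    · exact fun h => h.2
    · exact fun h => ⟨(Finset.mem_filter.1 h).1, h⟩
  rw [h7, ← h2] at h6
  linarith

theorem nsc_le (T : ℝ) : Nsc T ≤ SG.NZ T := by
  classical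
  have h2 : (Nsc T : ℝ) ≤ ∑ s ∈ zg T, mr s := by
    have e1 : {s : ℂ | riemannZeta s = 0 ∧ s.re = 1 / 2 ∧ 0 < s.im ∧ s.im ≤ T ∧ SG.zmult s = 1} ⊆
        (zg T : Set ℂ) := by
      rintro s ⟨a1, a2, a3, a4, a5⟩
      rw [Finset.mem_coe, mem_zg]
      exact ⟨a1, by rw [a2]; norm_num, by rw [a2]; norm_num, a3, a4⟩
    have e2 := Set.ncard_le_ncard e1 (Finset.finite_toSet _)
    rw [Set.ncard_coe_finset] at e2
    unfold Nsc
    calc (({s : ℂ | riemannZeta s = 0 ∧ s.re = 1 / 2 ∧ 0 < s.im ∧ s.im ≤ T ∧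
          SG.zmult s = 1}.ncard : ℕ) : ℝ) ≤ ((zg T).card : ℝ) := by exact_mod_cast e2
      _ = ∑ s ∈ zg T, (1 : ℝ) := by simp
      _ ≤ _ := Finset.sum_le_sum fun s hs => mr_ge hs
  rw [sum_zg] at h2
  exact_mod_cast h2

theorem nsc_lim {l : Filter ℝ} (hl : l ≤ atTop)
    (h : Tendsto (fun T => (prs T {0} : ℝ) / Rz T) l (𝓝 1)) :
    Tendsto (fun T => (Nsc T : ℝ) / SG.NZ T) l (𝓝 1) := by
  have hN : Tendsto (fun T : ℝ => (SG.NZ T : ℝ) / Rz T) l (𝓝 1) := NZ_lim.mono_left hl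
  have hR : Tendsto Rz atTop atTop := by
    have : Tendsto (fun T : ℝ => T * Real.log T) atTop atTop :=
      tendsto_id.atTop_mul_atTop₀ Real.tendsto_log_atTop
    exact this.atTop_div_const (by positivity)
  have hc : Tendsto (fun T => (SG.NZ 1 : ℝ) / Rz T) l (𝓝 0) :=
    (tendsto_const_nhds.div_atTop hR).mono_left hl
  -- lower bound `2 - D R / NZ - NZ 1 / NZ`
  have h1 : Tendsto (fun T => 2 - ((prs T {0} : ℝ) / Rz T) / ((SG.NZ T : ℝ) / Rz T) -
      ((SG.NZ 1 : ℝ) / Rz T) / ((SG.NZ T : ℝ) / Rz T)) l (𝓝 (2 - 1 / 1 - 0 / 1)) :=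
    (tendsto_const_nhds.sub (h.div hN one_ne_zero)).sub (hc.div hN one_ne_zero)
  have e : (2 : ℝ) - 1 / 1 - 0 / 1 = 1 := by norm_num
  rw [e] at h1
  have hev : ∀ᶠ T in l, 1 < T ∧ 0 < (SG.NZ T : ℝ) / Rz T := by
    refine ((eventually_gt_atTop 1).filter_mono hl).and ?_
    exact hN.eventually (lt_mem_nhds one_pos)
  refine tendsto_of_tendsto_of_tendsto_of_le_of_le' h1 tendsto_const_nhds ?_ ?_
  · filter_upwards [hev] with T hT
    have hRp := Rz_pos hT.1
    have hNp : 0 < (SG.NZ T : ℝ) := by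
      have := mul_pos hT.2 hRp
      rwa [div_mul_cancel₀ _ hRp.ne'] at this
    have := coinc hT.1
    have e2 : ((prs T {0} : ℝ) / Rz T) / ((SG.NZ T : ℝ) / Rz T) = (prs T {0} : ℝ) / SG.NZ T := by
      field_simp
    have e3 : ((SG.NZ 1 : ℝ) / Rz T) / ((SG.NZ T : ℝ) / Rz T) = (SG.NZ 1 : ℝ) / SG.NZ T := by
      field_simp
    rw [e2, e3, le_div_iff₀ hNp, sub_mul, sub_mul, div_mul_cancel₀ _ hNp.ne',
      div_mul_cancel₀ _ hNp.ne']
    linarith
  · filter_upwards [hev] with T hT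
    have hRp := Rz_pos hT.1
    have hNp : 0 < (SG.NZ T : ℝ) := by
      have := mul_pos hT.2 hRp
      rwa [div_mul_cancel₀ _ hRp.ne'] at this
    rw [div_le_one hNp]
    exact_mod_cast nsc_le T

end Pool.Agent.H606.OS
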