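import Mathlib

/-!
# Project OS (helper606): one-sided pair correlation without the Riemann hypothesis

Definitions and the statements `S_X` of the lemmas.  Every `S_X` is a closed `Prop`.
A worker on the task `X` proves `theorem t_X (h : S_Y) ... : S_X` in his own directory.
-/

open MeasureTheory Filter Topology Finset

namespace Pool.Agent.H606.OS

/-! ## Kernels -/

/-- the majorant `1 / (1 + x²)` -/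
noncomputable def ka (x : ℝ) : ℝ := 1 / (1 + x ^ 2)

/-- the Fejér kernel `(2 - 2 cos x) / x²` -/
noncomputable def fj (x : ℝ) : ℝ := ∫ u in (-1 : ℝ)..1, (1 - |u|) * Real.cos (u * x)

/-- minus the second derivative of the Fejér kernel -/
noncomputable def pp (x : ℝ) : ℝ := ∫ u in (-1 : ℝ)..1, u ^ 2 * (1 - |u|) * Real.cos (u * x)

/-- the real part of the Fejér kernel at `x + i v` -/
noncomputable def fc (x v : ℝ) : ℝ :=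
  ∫ u in (-1 : ℝ)..1, (1 - |u|) * Real.cos (u * x) * Real.cosh (u * v)

/-- the kernel of the pair sums, `4 (x - sin x) / x³` -/
noncomputable def kk (x : ℝ) : ℝ := ∫ u in (-1 : ℝ)..1, (1 - |u|) ^ 2 * Real.cos (u * x)

/-- the Fejér kernel on the complex plane -/
noncomputable def fz (z : ℂ) : ℂ :=
  ∫ u in (-1 : ℝ)..1, (((1 - |u| : ℝ)) : ℂ) * Complex.exp (Complex.I * u * z)

/-- Montgomery's density `1 - (sin πu / πu)²` -/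
noncomputable def Fg (u : ℝ) : ℝ := 1 - (Real.sin (Real.pi * u) / (Real.pi * u)) ^ 2

/-- continuous and `O(1/(1+t²))` -/
def Nice (f : ℝ → ℝ) : Prop := Continuous f ∧ ∃ K : ℝ, ∀ t, |f t| ≤ K * ka t

/-- TASK FJ.  Elementary properties of `fj` and `pp`.
Proof.  `fj 0 = 1`, and for `x ≠ 0` `fj x = (2 - 2 cos x)/x²` (antiderivatives on `[0,1]`; the integrand is even in
`u`); similarly `pp x = 2 ∫_0^1 u²(1-u) cos(ux) du`, and two integrations by parts (or an explicit antiderivative) give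
`|pp x| ≤ C/x²`; also `|pp x| ≤ 1`.  `∫ fj = 2π`: Fourier inversion (`Continuous.fourierInv_fourier_eq` or similar, for the
tent function, whose Fourier transform is integrable as `|fj| ≤ C ka`), evaluated at `0`. -/
def S_FJ : Prop := ∃ C : ℝ, 1 ≤ C ∧ Continuous fj ∧ (∀ x, fj (-x) = fj x) ∧
  (∀ x, 0 ≤ fj x ∧ fj x ≤ C * ka x) ∧ Integrable fj ∧ (∫ x, fj x) = 2 * Real.pi ∧
  Continuous pp ∧ (∀ x, pp (-x) = pp x) ∧ (∀ x, |pp x| ≤ C * ka x)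

/-- TASK INTS.  Integrals of `fj` and `pp` over intervals.
Proof.  First part: `∫_U^V fj(a(c-t)) dt = (1/a) ∫_{a(c-V)}^{a(c-U)} fj`, the total mass is `2π` (`S_FJ`) and
`∫_{|x| > r, one side} fj ≤ ∫_r^∞ C ka ≤ C'/(1+r)` for `r ≥ 0`.
Second part: `pp = -fj''` and `fj'(x) = -∫ u (1-|u|) sin(ux) du =: -r(x)`, so `∫_U^V pp(a(c-t)) dt =
(1/a) (r(a(c-U)) - r(a(c-V)))` (integrate `cos(u a (c-t))` in `t` first), and `|r(x)| ≤ C ka x` (two integrations by parts,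
or the explicit formula). -/
def S_INTS : Prop := ∃ C : ℝ, 0 < C ∧
  (∀ a c U V : ℝ, 0 < a → U ≤ c → c ≤ V →
    2 * Real.pi / a - C / a * (1 / (1 + a * (c - U)) + 1 / (1 + a * (V - c))) ≤
      ∫ t in U..V, fj (a * (c - t))) ∧
  (∀ a c U V : ℝ, 0 < a → |∫ t in U..V, pp (a * (c - t))| ≤
    C / a * (ka (a * (c - U)) + ka (a * (c - V))))

/-- TASK FC.  The Fejér kernel off the real line.
Proof.  `fc x v - fj x - v²/2 pp x = ∫_{-1}^1 (1-|u|) cos(ux) h(u) du`, `h(u) = cosh(uv) - 1 - (uv)²/2`, an even `C²` function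
of `u` with `|h|, |h'|, |h''| ≤ C v⁴ e^{|v|}` on `[-1,1]` and `h(0) = h'(0) = 0`
(`0 ≤ cosh w - 1 - w²/2 ≤ w⁴ cosh w / 24`, `|sinh w - w| ≤ |w|³ cosh w/6`, `0 ≤ cosh w - 1 ≤ w² cosh w / 2`).  It equals
`2 ∫_0^1 (1-u) h(u) cos(ux) du`; bounded by `C v⁴ e^{|v|}`, and for `x ≠ 0` two integrations by parts give
`(2/x²) |[..]| ≤ C v⁴ e^{|v|} / x²`.  The bound for `fc` follows in the same way with `cosh(uv)`
(or from the first bound and `v⁴ e^{|v|} ≤ C e^{2|v|}`). -/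
def S_FC : Prop := ∃ C : ℝ, 0 < C ∧ (∀ v, Continuous (fun x => fc x v)) ∧
  (∀ x v, |fc x v - fj x - v ^ 2 / 2 * pp x| ≤ C * (v ^ 4 * Real.exp |v|) * ka x) ∧
  (∀ x v, |fc x v| ≤ C * Real.exp (2 * |v|) * ka x)

/-- TASK PL.  Plancherel.
Proof.  `Φ` is (up to normalisation) the Fourier transform of `φ`, `Φ` is integrable (`|Φ| ≤ K ka`, continuous), so by Fourier
inversion `∫ Φ(y) e^{-iuy} dy = 2π φ(u)` for all `u`.  `Φ(x - t) = ∫ φ(u) e^{iu(x-t)} du` (φ even), so by Fubini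
`∫ Φ(x-t) Φ(y-t) dt = ∫ φ(u) e^{iu(x-y)} (∫ Φ(s) e^{-i..us} ds) du = 2π ∫ φ(u)² cos(u(x-y)) du`. -/
def S_PL : Prop := ∀ φ : ℝ → ℝ, Continuous φ → (∀ u, φ (-u) = φ u) → (∀ u, 1 ≤ |u| → φ u = 0) →
  ∀ K : ℝ, (∀ x : ℝ, |∫ u in (-1 : ℝ)..1, φ u * Real.cos (u * x)| ≤ K * ka x) → ∀ x y : ℝ,
  Integrable (fun t : ℝ => (∫ u in (-1 : ℝ)..1, φ u * Real.cos (u * (x - t))) *
    ∫ u in (-1 : ℝ)..1, φ u * Real.cos (u * (y - t))) ∧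
  (∫ t : ℝ, (∫ u in (-1 : ℝ)..1, φ u * Real.cos (u * (x - t))) *
    ∫ u in (-1 : ℝ)..1, φ u * Real.cos (u * (y - t))) =
    2 * Real.pi * ∫ u in (-1 : ℝ)..1, φ u ^ 2 * Real.cos (u * (x - y))

/-- TASK KK.  The kernel of the pair sums.
Proof.  `kk x = 2 ∫_0^1 (1-u)² cos(ux) du`, `kk 0 = 2/3`, `kk x = 4 (x - sin x)/x³` for `x ≠ 0` (explicit antiderivative).
Nonnegative and at most `8/x²`.  Decreasing on `[0,∞)`: the derivative of `(x - sin x)/x³` is `q(x)/x⁴`,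
`q(x) = 3 sin x - 2x - x cos x ≤ 0` (`q(0) = 0`, `q'(x) = 2 cos x - 2 + x sin x = 2 sin(x/2) (x cos(x/2) - 2 sin(x/2)) ≤ 0` on
`[0, 2π]`, because `y cos y ≤ sin y` for `0 ≤ y ≤ π`; and `q(x) ≤ 3 - x ≤ 0` for `x ≥ 2π`).
`kk 0 - kk x = 2 ∫_0^1 (1-u)² (1 - cos(ux)) du` with `θ²/2 - θ⁴/24 ≤ 1 - cos θ ≤ θ²/2`, `∫(1-u)²u² = 1/30`,
`∫(1-u)²u⁴ = 1/105`.  Last part: `|d/dθ kk(θx)| = |x kk'(θx)|` and `|w kk'(w)| ≤ C ka(w)`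
(`kk'(w) = 4 q(w)/w⁴`, `|q(w)| ≤ 3 + 3|w|`, and `|kk'| ≤ 2` everywhere), `ka(θx) ≤ 4 ka(x)`. -/
def S_KK : Prop := ∃ C : ℝ, 1 ≤ C ∧ Continuous kk ∧ kk 0 = 2 / 3 ∧ (∀ x, kk (-x) = kk x) ∧
  (∀ x, 0 ≤ kk x) ∧ AntitoneOn kk (Set.Ici 0) ∧ (∀ x, kk x ≤ C * ka x) ∧
  (∀ x, kk 0 - kk x ≤ x ^ 2) ∧ (∀ x, |x| ≤ 1 → x ^ 2 / 60 ≤ kk 0 - kk x) ∧
  (∀ x θ, 1 / 2 ≤ θ → θ ≤ 2 → |kk (θ * x) - kk x| ≤ C * |θ - 1| * ka x)

/-- TASK GUE.  The pair sum of the sine process.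
Proof.  On `(0,∞)` the integrand is continuous and `O(ka)` (`S_KK`, `0 ≤ Fg ≤ 1`).  It is even, so the left side is
`kk 0 + ∫_ℝ kk(2πbu) (1 - sinc²(πu)) du`.  `kk(2πx) = ∫ τ(v)² e^{2πivx} dv`, `τ(v) = (1-|v|)₊`: Fourier transform of `τ²`, so
`∫_ℝ kk(2πbu) du = τ(0)²/b = 1/b` (inversion) and, as `sinc²(πu) = ∫ τ(α) e^{2πiαu} dα`, by Fubini and inversion
`∫_ℝ kk(2πbu) sinc²(πu) du = ∫ τ(α) τ(α/b)²/b dα = ∫ τ(bv) τ(v)² dv = 2/3 - b ∫ |v| τ(v)² dv = 2/3 - b/6` for `b ≤ 1`. -/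
def S_GUE : Prop := ∀ b : ℝ, 0 < b → b ≤ 1 →
  IntegrableOn (fun u => kk (2 * Real.pi * b * u) * Fg u) (Set.Ioi 0) ∧
  2 / 3 + 2 * ∫ u in Set.Ioi (0 : ℝ), kk (2 * Real.pi * b * u) * Fg u = 1 / b + b / 6

/-- TASK GK.  Removing the Gaussian factor from the complex kernel.
Proof.  With `z = x + iy`: `fc (ax) (ay) = (fz(a z) + fz(a conj z))/2` (`cos(p) cosh(q) = (cos(p+iq) + cos(p-iq))/2`, and
`fz w = ∫ (1-|u|) cos(uw) du` by parity).  `fz` is even and `|fz w| ≤ C e^{|Im w|} / (1 + |w|²)` (for `w ≠ 0`,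
`fz w = (2 - 2 cos w)/w²`; or two integrations by parts), `|e^{-z²/2} - 1| ≤ C min(1, |z|²)` for `|y| ≤ 1/2`, and
`min(1,|z|²)/(1 + a²|z|²) ≤ (C/a²) ka x` for `a ≥ 1`, `|y| ≤ 1/2`. -/
def S_GK : Prop := ∃ C : ℝ, 0 < C ∧ ∀ a x y : ℝ, 1 ≤ a → |y| ≤ 1 / 2 →
  ‖(fz ((a : ℂ) * (x + Complex.I * y)) * Complex.exp (-(x + Complex.I * y) ^ 2 / 2) +
    fz ((a : ℂ) * (x - Complex.I * y)) * Complex.exp (-(x - Complex.I * y) ^ 2 / 2)) / 2 -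
    (fc (a * x) (a * y) : ℂ)‖ ≤ C * Real.exp (a * |y|) / a ^ 2 * ka x

/-! ## Deterministic inequalities for finite sums -/

/-- weighted number of points in `(t, t + 1/L]` -/
noncomputable def wn {ι : Type} (Z : Finset ι) (w p : ι → ℝ) (L t : ℝ) : ℝ :=
  ∑ s ∈ Z, w s * (Set.Ioc t (t + 1 / L)).indicator (fun _ => (1 : ℝ)) (p s)

/-- TASK LP.  Square function estimate for the quadratic terms.
Proof.  `φ(u) = u²(1-|u|)₊` in `S_PL` (`|pp| ≤ C ka` by `S_FJ`), scaled: with `b_i = b0/2^i`, `a = b_i L` and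
`V(ξ) = ∑ c_s e^{iξ p_s}`, `∫ (∑ c_s pp(a(p_s - t)))² dt = (2π/a) ∫_{-1}^1 φ(u)² |V(au)|² du`.  So the `i`-th term of the left
side is `(π/2)(b_i/L) ∫ φ(u)² |V(b_i L u)|² du = (π/(2L)) ∫ φ(v/b_i)² |V(Lv)|² dv`, and
`∑_i φ(v/b_i)² ≤ ∑_{b_i ≥ |v|} (v/b_i)⁴ ≤ 16/15 · 1_{|v| ≤ 1}`.  Then `1_{|v| ≤ 1} ≤ e · e^{-v²}` and
`∫ e^{-v²} |V(Lv)|² dv = √π ∑∑ c_s c_s' exp(-(L(p_s - p_s'))²/4)`.  (All sums are finite, `|V|² = ∑∑ c_s c_s' cos(ξ(p_s - p_s'))`.) -/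
def S_LP : Prop := ∃ C : ℝ, 0 < C ∧ ∀ (ι : Type) (Z : Finset ι) (c p : ι → ℝ) (L b0 : ℝ) (n : ℕ),
  0 < L → 0 < b0 → b0 ≤ 1 →
  ∑ i ∈ range n, (∫ t : ℝ, (∑ s ∈ Z, c s * ((b0 / 2 ^ i) ^ 2 / 2 *
    pp (b0 / 2 ^ i * L * (p s - t)))) ^ 2) / (b0 / 2 ^ i) ^ 2 ≤
  C / L * ∑ s ∈ Z, ∑ s' ∈ Z, c s * c s' * Real.exp (-(L * (p s - p s')) ^ 2 / 4)

/-- TASK CWG.  Gaussian pair sums.
Proof.  Let `B_j = ∑_{p_s ∈ (j/(2L), (j+1)/(2L)]} c_s` (`j ∈ ℤ`).  For `p_s` in the `j`-th and `p_s'` in the `j'`-th interval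
`L|p_s - p_s'| ≥ (|j-j'| - 1)/2`, so the left side is `≤ ∑∑ B_j B_j' e^{-((|j-j'|-1)₊)²/16} ≤ C ∑ B_j²` (`xy ≤ (x²+y²)/2`).
For `(j-1)/(2L) ≤ t < j/(2L)`... the interval `(t, t+1/L]` contains the `j`-th interval, so `∫ wn² ≥ ∑_j B_j²/(2L)`.
(Alternative without bins: for `|d| ≤ 1/(2L)`, `1 ≤ 2L ∫ 1[t < x ≤ t+1/L] 1[t < x+d ≤ t+1/L] dt`, and for general `d` shift.) -/
def S_CWG : Prop := ∃ C : ℝ, 0 < C ∧ ∀ (ι : Type) (Z : Finset ι) (c p : ι → ℝ) (L : ℝ),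
  0 < L → (∀ s ∈ Z, 0 ≤ c s) →
  ∑ s ∈ Z, ∑ s' ∈ Z, c s * c s' * Real.exp (-(L * (p s - p s')) ^ 2 / 4) ≤
    C * L * ∫ t : ℝ, wn Z c p L t ^ 2

/-- TASK L2K.  Mean square of the sums with the kernel `ka`.
Proof.  For `c' ≤ L`: if `t + r < p ≤ t + r + 1/L` then `|c' r| ≤ |c'(p - t)| + 1`, so `ka(c' r) ≥ ka(c'(p-t))/3`; the set of these
`r` has measure `1/L`, so `∑ w_s ka(c'(p_s - t)) ≤ 3L ∫ ka(c' r) f(t + r) dr`, `f = wn Z w p L`.  Cauchy-Schwarz with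
`∫ ka(c' r) dr = π/c'`: the square is `≤ 9L² (π/c') ∫ ka(c' r) f(t+r)² dr`; integrate over `t` (Tonelli). -/
def S_L2K : Prop := ∃ C : ℝ, 0 < C ∧ ∀ (ι : Type) (Z : Finset ι) (w p : ι → ℝ) (L c : ℝ),
  0 < c → c ≤ L → (∀ s ∈ Z, 0 ≤ w s) →
  ∫ t : ℝ, (∑ s ∈ Z, w s * ka (c * (p s - t))) ^ 2 ≤ C * (L / c) ^ 2 * ∫ t : ℝ, wn Z w p L t ^ 2

/-- TASK PB.  Pair sums with the kernel `ka`.
Proof.  For `|t - x| ≤ 1/c`: `ka(c(x-t)) ≥ 1/2` and `ka(c(y-t)) ≥ ka(c(x-y))/3`, so `ka(c(x-y)) ≤ 3c ∫ ka(c(x-t)) ka(c(y-t)) dt`.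
Sum over the pairs and use `S_L2K`. -/
def S_PB : Prop := ∃ C : ℝ, 0 < C ∧ ∀ (ι : Type) (Z : Finset ι) (w p : ι → ℝ) (L c : ℝ),
  0 < c → c ≤ L → (∀ s ∈ Z, 0 ≤ w s) →
  ∑ s ∈ Z, ∑ s' ∈ Z, w s * w s' * ka (c * (p s - p s')) ≤ C * (L ^ 2 / c) * ∫ t : ℝ, wn Z w p L t ^ 2

/-! ## The zeros -/

/-- the points with ordinate in `(T, 3T/2]` -/
noncomputable def zw (ZG : ℝ → Finset ℂ) (T : ℝ) : Finset ℂ := (ZG (3 * T / 2)).filter (fun s => T < s.im)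

/-- the weight of a zero -/
noncomputable def wt (T : ℝ) (s : ℂ) : ℝ :=
  1 + (Real.log T * (s.re - 1 / 2)) ^ 2 * Real.exp (Real.log T * |s.re - 1 / 2| / 4)

/-- ordinates -/
noncomputable def AF (Z : Finset ℂ) (m : ℂ → ℝ) (T b t : ℝ) : ℝ :=
  ∑ s ∈ Z, m s * fj (b * Real.log T * (s.im - t))

/-- complex zeros -/
noncomputable def CF (Z : Finset ℂ) (m : ℂ → ℝ) (T b t : ℝ) : ℝ :=
  ∑ s ∈ Z, m s * fc (b * Real.log T * (s.im - t)) (b * Real.log T * (s.re - 1 / 2))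

/-- the quadratic term of the difference -/
noncomputable def QF (Z : Finset ℂ) (m : ℂ → ℝ) (T b t : ℝ) : ℝ :=
  ∑ s ∈ Z, m s * ((b * Real.log T * (s.re - 1 / 2)) ^ 2 / 2 * pp (b * Real.log T * (s.im - t)))

/-- the pair sum of the ordinates -/
noncomputable def PW (Z : Finset ℂ) (m : ℂ → ℝ) (T b : ℝ) : ℝ :=
  ∑ s ∈ Z, ∑ s' ∈ Z, m s * m s' * kk (b * Real.log T * (s.im - s'.im))

/-- the zeros of zeta, abstractly.  `ZG T`: the zeros with ordinate in `(0, T]`; `m`: multiplicity. -/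
structure ZD (C0 : ℝ) where
  /-- the zeros -/
  ZG : ℝ → Finset ℂ
  /-- the multiplicities -/
  m : ℂ → ℝ
  hm : ∀ s, 0 ≤ m s
  mem : ∀ T, ∀ s ∈ ZG T, 0 < s.im ∧ s.im ≤ T ∧ 0 < s.re ∧ s.re < 1
  coh : ∀ T T' : ℝ, T ≤ T' → ∀ s, s ∈ ZG T ↔ s ∈ ZG T' ∧ s.im ≤ T
  loc : ∀ T : ℝ, 10 ≤ T → ∀ t : ℝ,
    ∑ s ∈ (ZG T).filter (fun s => |s.im - t| ≤ 1), m s ≤ C0 * Real.log T
  cnt : ∀ ε : ℝ, 0 < ε → ∀ᶠ T in atTop,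
    |(∑ s ∈ zw ZG T, m s) - T * Real.log T / (4 * Real.pi)| ≤ ε * (T * Real.log T)
  w2 : ∀ᶠ T in atTop, ∫ t : ℝ, wn (zw ZG T) (fun s => m s * wt T s) Complex.im (Real.log T) t ^ 2 ≤
    C0 * T
  ms : ∀ b : ℝ, 0 < b → b ≤ 1 / 12 → ∀ η : ℝ, 0 < η → ∀ᶠ T in atTop,
    ∫ t : ℝ, CF (zw ZG T) m T b t ^ 2 ≤ (1 / b ^ 2 + 1 / 6 + η) * (T / 2)

/-- TASK NICE.  The fields are continuous and decay.
Proof.  Each of `fj(a(γ-t))`, `fc(a(γ-t)) v`, `pp(a(γ-t))` is continuous in `t` and `O(ka(a(γ-t))) = O(ka t)` (`a = b log T > 0`).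
`ka` is integrable, products of nice functions are nice. -/
def S_NICE : Prop := Integrable ka ∧ (∀ f g : ℝ → ℝ, Nice f → Nice g → Nice (fun t => f t * g t)) ∧
  (∀ f g : ℝ → ℝ, Nice f → Nice g → Nice (fun t => f t + g t)) ∧
  (∀ f : ℝ → ℝ, ∀ c : ℝ, Nice f → Nice (fun t => c * f t)) ∧ (∀ f : ℝ → ℝ, Nice f → Integrable f) ∧
  (∀ (Z : Finset ℂ) (m : ℂ → ℝ) (T b : ℝ), 1 < T → 0 < b →
    Nice (AF Z m T b) ∧ Nice (CF Z m T b) ∧ Nice (QF Z m T b))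

/-- TASK PAR.  The mean square of `AF` is the pair sum.
Proof.  `S_PL` with `φ(u) = (1-|u|)₊` (`fj` is the transform; `S_FJ` for the decay), scaled by `a = b log T`:
`∫ fj(a(γ-t)) fj(a(γ'-t)) dt = (1/a) · 2π kk(a(γ-γ'))`; sum over the pairs. -/
def S_PAR : Prop := ∀ (Z : Finset ℂ) (m : ℂ → ℝ) (T b : ℝ), 1 < T → 0 < b →
  ∫ t : ℝ, AF Z m T b t ^ 2 = 2 * Real.pi / (b * Real.log T) * PW Z m T b

/-- TASK W1.  Size of the quadratic term and of the remainder.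
Proof.  `L = log T`, `v_s = bL(β_s - 1/2)`.  `S_L2K` with `c = bL ≤ L`, `w = m · wt T`.  For `QF`: `v²/2 |pp| ≤ C b² wt ka`
(`S_FJ`, `(L(β-1/2))² ≤ wt`).  For the remainder: `S_FC` and `v⁴ e^{|v|} = b⁴ z⁴ e^{bz} ≤ 20 b⁴ z² e^{z/4}`, `z = L|β-1/2|`, as
`b ≤ 1/12` and `z² ≤ 20 e^{z/6}`.  So `∫ QF² ≤ C b⁴ b^{-2} C0 T`, `∫ (..)² ≤ C b⁸ b^{-2} C0 T` (field `w2`). -/
def S_W1 : Prop := ∀ C0 : ℝ, 0 < C0 → ∃ C : ℝ, 0 < C ∧ ∀ D : ZD C0, ∀ b : ℝ, 0 < b → b ≤ 1 / 12 →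
  ∀ᶠ T in atTop, ∫ t : ℝ, QF (zw D.ZG T) D.m T b t ^ 2 ≤ C * b ^ 2 * T ∧
    ∫ t : ℝ, (CF (zw D.ZG T) D.m T b t - AF (zw D.ZG T) D.m T b t - QF (zw D.ZG T) D.m T b t) ^ 2 ≤
      C * b ^ 6 * T

/-- TASK W2.  Integrals over the window.
Proof.  `L = log T`, `a = bL`.  For every `τ` and `T ≥ 10`, by `loc` (bins of length 1 around `τ`; `loc` at height `3T/2`):
`∑ m ka(a(γ-τ)) ≤ C L (1 + a^{-2})` and `∑_{γ ≥ τ} m/(1 + a(γ-τ)) ≤ C L ∑_{j ≤ T} 1/(1+aj) ≤ C L (1 + L/a) ≤ C L(1 + 1/b)`.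
First part: `S_INTS`, second part, and `(bL(β-1/2))² ≤ (bL)²/4`: the integral is at most `C (bL) L (1 + a^{-2}) ≤ η T`.
Second part: `S_INTS`, first part: `≥ (2π/a) ∑ m - (C/a) L (1+1/b)`, and the field `cnt`. -/
def S_W2 : Prop := ∀ C0 : ℝ, 0 < C0 → ∀ D : ZD C0, ∀ b : ℝ, 0 < b → b ≤ 1 / 12 → ∀ η : ℝ, 0 < η →
  ∀ᶠ T in atTop, |∫ t in T..(3 * T / 2), QF (zw D.ZG T) D.m T b t| ≤ η * T ∧
    (1 / b - η) * (T / 2) ≤ ∫ t in T..(3 * T / 2), AF (zw D.ZG T) D.m T b t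

/-- TASK W3.  The fluctuations of the complex field are bounded in mean square.
Proof.  Expand: `∫ CF² - (2/b) ∫_T^{3T/2} CF + T/(2b²)`.  `∫ CF² ≤ (1/b² + 1/6 + 1) T/2` (field `ms`), and
`∫_T^{3T/2} CF = ∫ AF + ∫ QF + ∫ (CF - AF - QF) ≥ (1/b - η) T/2 - ηT - √(T/2) √(C b⁶ T)` (`S_W2`, `S_W1`, Cauchy-Schwarz);
choose `η = b`. -/
def S_W3 : Prop := ∀ C0 : ℝ, 0 < C0 → ∃ C : ℝ, 0 < C ∧ ∀ D : ZD C0, ∀ b : ℝ, 0 < b → b ≤ 1 / 12 →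
  ∀ᶠ T in atTop, ∫ t : ℝ, (CF (zw D.ZG T) D.m T b t -
    (Set.Ioc T (3 * T / 2)).indicator (fun _ => 1 / b) t) ^ 2 ≤ C * T

/-- TASK W4.  The mean square of the field of the ordinates.
Proof.  `A = C - Q - R`, `R = CF - AF - QF`, `c = (1/b) 1_{(T,3T/2]}`:
`∫A² = ∫C² - 2∫(C-c)Q - 2∫(C-c)R - 2∫c(Q+R) + ∫(Q+R)²`.  `∫C² ≤ (1/b² + 1/6 + η)(T/2)` (field `ms`),
`|∫(C-c)Q| ≤ √(CT) √(∫Q²)`, `|∫(C-c)R| ≤ √(CT) √(Cb⁶T)` (`S_W3`, `S_W1`), `|∫cQ| ≤ (1/b) η' T` (`S_W2`),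
`|∫cR| ≤ (1/b) √(T/2) √(Cb⁶T) ≤ C b² T`, `∫(Q+R)² ≤ 2(Cb² + Cb⁶)T`. -/
def S_W4 : Prop := ∀ C0 : ℝ, 0 < C0 → ∃ C : ℝ, 0 < C ∧ ∀ D : ZD C0, ∀ b : ℝ, 0 < b → b ≤ 1 / 12 →
  ∀ η : ℝ, 0 < η → ∀ᶠ T in atTop, ∫ t : ℝ, AF (zw D.ZG T) D.m T b t ^ 2 ≤ (1 / b ^ 2 + 1 / 6) * (T / 2) +
    C * Real.sqrt T * Real.sqrt (∫ t : ℝ, QF (zw D.ZG T) D.m T b t ^ 2) + C * b ^ 2 * T + η * T

/-- TASK W5.  Summation over the dyadic scales.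
Proof.  `S_LP` with `c_s = m_s (L(β_s-1/2))² ≤ m_s wt T s`, `p = Im`, `L = log T`
(`(b L (β-1/2))²/2 pp = (L(β-1/2))² · (b²/2) pp`), then `S_CWG`, then `w2` (`wn` is monotone in the weights). -/
def S_W5 : Prop := ∀ C0 : ℝ, 0 < C0 → ∃ C : ℝ, 0 < C ∧ ∀ D : ZD C0, ∀ (n : ℕ) (b0 : ℝ), 0 < b0 → b0 ≤ 1 / 12 →
  ∀ᶠ T in atTop, ∑ i ∈ range n, (∫ t : ℝ, QF (zw D.ZG T) D.m T (b0 / 2 ^ i) t ^ 2) / (b0 / 2 ^ i) ^ 2 ≤ C * T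

/-- TASK N1W.  The upper bound for the pair sums in a window.
Proof.  `M = T L/(4π)`.  `S_PAR`: `(PW b - M(1/b + b/6))/b² = (L/(2πb)) (∫AF² - (T/2)(1/b² + 1/6))
≤ (L/(2πb)) (C√T √(∫QF²) + C b² T + η T)` by `S_W4`.  Sum over `b = b_i = b0/2^i`, `i < n`: by Cauchy-Schwarz
`∑ √(∫QF²)/b_i ≤ √n (∑ ∫QF²/b_i²)^{1/2} ≤ √n √(CT)` (`S_W5`), `∑ b_i ≤ 2 b0 ≤ 1`, and `η ∑ 1/b_i ≤ 1` for small `η`. -/
def S_N1W : Prop := ∀ C0 : ℝ, 0 < C0 → ∃ C : ℝ, 0 < C ∧ ∀ D : ZD C0, ∀ (n : ℕ) (b0 : ℝ), 0 < b0 → b0 ≤ 1 / 12 →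
  ∀ᶠ T in atTop, ∑ i ∈ range n, (PW (zw D.ZG T) D.m T (b0 / 2 ^ i) -
    T * Real.log T / (4 * Real.pi) * (1 / (b0 / 2 ^ i) + b0 / 2 ^ i / 6)) / (b0 / 2 ^ i) ^ 2 ≤
      C * (Real.sqrt n + 1) * (T * Real.log T)

/-- TASK N2W.  The lower bound for the pair sums in a window.
Proof.  `S_PAR`, `∫ AF² ≥ ∫_T^{3T/2} AF² ≥ (∫_T^{3T/2} AF)²/(T/2)` (Cauchy-Schwarz), `S_W2`. -/
def S_N2W : Prop := ∀ C0 : ℝ, 0 < C0 → ∀ D : ZD C0, ∀ b : ℝ, 0 < b → b ≤ 1 / 12 → ∀ η : ℝ, 0 < η →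
  ∀ᶠ T in atTop, (1 / b - η) * (T * Real.log T / (4 * Real.pi)) ≤ PW (zw D.ZG T) D.m T b

/-- TASK PBW.  Pair sums with the kernel `ka` in a window.
Proof.  `S_PB` with `c = bL ≤ L`, `w = m ≤ m · wt`, and the field `w2` (`wn` is monotone in the weights). -/
def S_PBW : Prop := ∀ C0 : ℝ, 0 < C0 → ∃ C : ℝ, 0 < C ∧ ∀ D : ZD C0, ∀ b : ℝ, 0 < b → b ≤ 1 →
  ∀ᶠ T in atTop, ∑ s ∈ zw D.ZG T, ∑ s' ∈ zw D.ZG T, D.m s * D.m s' * ka (b * Real.log T * (s.im - s'.im)) ≤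
    C / b * (T * Real.log T)

/-- TASK CR.  Pairs on both sides of a height `τ`.
Proof.  `L = log T ≥ 1`.  Let `s` be in bin `i` (`i ≤ τ - γ < i+1`) and `s'` in bin `j` (`j < γ' - τ ≤ j+1`), `0 ≤ i, j ≤ T`;
each bin has total weight `≤ C0 L` (`loc`), and `ka(bL(γ'-γ)) ≤ ka(bL(i+j)) ≤ min(1, 1/(bL(i+j))²)`.  So the sum is at most
`(C0 L)² (1 + ∑_{1 ≤ k ≤ 2T} (k+1)/(bLk)²) ≤ (C0 L)² + (C0²/b²) · C log T`. -/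
def S_CR : Prop := ∀ C0 : ℝ, 0 < C0 → ∃ C : ℝ, 0 < C ∧ ∀ D : ZD C0, ∀ b : ℝ, 0 < b → b ≤ 1 → ∀ T : ℝ, 10 ≤ T →
  ∀ τ : ℝ, ∑ s ∈ (D.ZG T).filter (fun s => s.im ≤ τ), ∑ s' ∈ (D.ZG T).filter (fun s => τ < s.im),
    D.m s * D.m s' * ka (b * Real.log T * (s.im - s'.im)) ≤ C / b ^ 2 * (Real.log T) ^ 2

/-- TASK TL.  Uniform bound for the pair sums up to height `T' ≤ T` (with the scale `log T`).
Proof.  Let `T_b ≥ 10` be such that the bound of `S_PBW` holds for all heights `≥ T_b`, `E(T')` the left side.  For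
`T' > (3/2) T_b`: `ZG T' = ZG (2T'/3) ∪ zw (2T'/3)` (field `coh`), so `E(T') ≤ E(2T'/3) + (C/b)(2T'/3) L + 2 (C/b²) L²`
(`S_PBW` at height `2T'/3`, where `ka(bLx) ≤ ka(b L'' x)`, `L'' = log(2T'/3) ≤ L`; `S_CR` at height `T` with `τ = 2T'/3`, both
orders).  Iterate; there are at most `3L` steps and the geometric series gives `(C/b) 2 T' L`; at the end `T' ≤ (3/2) T_b` and
`E ≤ (∑_{ZG (3T_b/2)} m)²`, a constant depending on `D`, `b`. -/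
def S_TL : Prop := ∀ C0 : ℝ, 0 < C0 → ∃ C : ℝ, 0 < C ∧ ∀ D : ZD C0, ∀ b : ℝ, 0 < b → b ≤ 1 →
  ∃ B : ℝ, 0 < B ∧ ∀ T : ℝ, 10 ≤ T → ∀ T' : ℝ, 1 ≤ T' → T' ≤ T →
    ∑ s ∈ D.ZG T', ∑ s' ∈ D.ZG T', D.m s * D.m s' * ka (b * Real.log T * (s.im - s'.im)) ≤
      C / b * (T' * Real.log T) + B * (Real.log T) ^ 3

/-- TASK STEP.  One step of the decomposition into windows.
Proof.  `L = log T`, `T' = ρT`, `T'' = 2T'/3`, `L'' = log T''`, `Z'' = zw T''`; `ZG T' = ZG T'' ∪ Z''` (disjoint, `coh`).  Up to the pairs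
with one element in each part (bounded by `S_CR` at height `T`, `kk ≤ C ka`: `O(L²)`), `PW (ZG T') T b = PW (ZG T'') T b + PW Z'' T b`;
and `|PW Z'' T b - PW Z'' T'' b| ≤ C |L/L'' - 1| ∑∑ m m' ka(bL''(γ-γ')) ≤ C |L/L''-1| (C/b) T'' L''` by `S_KK` (with
`θ = L/L'' → 1`) and `S_PBW`. -/
def S_STEP : Prop := ∀ C0 : ℝ, 0 < C0 → ∀ D : ZD C0, ∀ b ρ : ℝ, 0 < b → b ≤ 1 / 12 → 0 < ρ → ρ ≤ 1 →
  ∀ η : ℝ, 0 < η → ∀ᶠ T in atTop,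
    |PW (D.ZG (ρ * T)) D.m T b - PW (D.ZG (2 / 3 * ρ * T)) D.m T b -
      PW (zw D.ZG (2 / 3 * ρ * T)) D.m (2 / 3 * ρ * T) b| ≤ η * (T * Real.log T)

/-- TASK N1G.  The upper bound for the pair sums of all zeros up to `T`.
Proof.  `X = TL/(2π)`.  Choose `K` with `(2/3)^K` small.  By `S_STEP` (`ρ = (2/3)^k`, `k < K`, for each of the finitely many
`b_i`), `PW (ZG T) T b_i ≤ ∑_{k<K} PW (zw T_k) T_k b_i + PW (ZG ((2/3)^K T)) T b_i + η X`, `T_k = (2/3)^{k+1} T`, and by `S_TL`, `S_KK` the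
last pair sum is `≤ C ((C/b_i) (2/3)^K T L + B L³)`.  Apply `S_N1W` at the heights `T_k`:
`M_k = T_k log T_k/(4π)`, `∑_{k<K} 2 M_k... ≤ X`: indeed `∑_k T_k/2 ≤ T`, so `∑_k M_k (1/b + b/6) ≤ X (1/b + b/6)`, and
`∑_k C(√n+1) T_k log T_k ≤ 2C(√n+1) T L`.  The remaining errors are at most `ε X` after the choice of `K`, then `η`, `T`. -/
def S_N1G : Prop := ∀ C0 : ℝ, 0 < C0 → ∃ C : ℝ, 0 < C ∧ ∀ D : ZD C0, ∀ (n : ℕ) (b0 : ℝ), 0 < b0 → b0 ≤ 1 / 12 →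
  ∀ᶠ T in atTop, ∑ i ∈ range n, (PW (D.ZG T) D.m T (b0 / 2 ^ i) -
    T * Real.log T / (2 * Real.pi) * (1 / (b0 / 2 ^ i) + b0 / 2 ^ i / 6)) / (b0 / 2 ^ i) ^ 2 ≤
      C * (Real.sqrt n + 1) * (T * Real.log T / (2 * Real.pi))

/-- TASK N2G.  The lower bound for the pair sums of all zeros up to `T`.
Proof.  As for `S_N1G`: `PW (ZG T) T b ≥ ∑_{k<K} PW (zw T_k) T_k b - η X` by `S_STEP` (`PW ≥ 0` for the last one, `kk ≥ 0`), and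
`S_N2W`; `∑_{k<K} T_k log T_k/(4π) ≥ (1 - (2/3)^K) X (1 - o(1))`. -/
def S_N2G : Prop := ∀ C0 : ℝ, 0 < C0 → ∀ D : ZD C0, ∀ b : ℝ, 0 < b → b ≤ 1 / 12 → ∀ η : ℝ, 0 < η →
  ∀ᶠ T in atTop, (1 / b - η) * (T * Real.log T / (2 * Real.pi)) ≤ PW (D.ZG T) D.m T b

/-! ## From the pair sums to the counts -/

/-- the pair sum of a configuration, divided by `R` -/
noncomputable def ssum {N : ℕ} (x : Fin N → ℝ) (R b : ℝ) : ℝ :=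
  (∑ j, ∑ k, kk (2 * Real.pi * b * (x j - x k))) / R

/-- the number of pairs with difference in `[α, β]`, divided by `R` -/
noncomputable def pc {N : ℕ} (x : Fin N → ℝ) (R α β : ℝ) : ℝ :=
  ({q : Fin N × Fin N | x q.1 - x q.2 ∈ Set.Icc α β}.ncard : ℝ) / R

/-- the number of coincident pairs (the pairs of an index with itself included), divided by `R` -/
noncomputable def dg {N : ℕ} (x : Fin N → ℝ) (R : ℝ) : ℝ :=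
  ({q : Fin N × Fin N | x q.1 = x q.2}.ncard : ℝ) / R

/-- the number of pairs with difference in `(0, β]`, divided by `R` -/
noncomputable def p0 {N : ℕ} (x : Fin N → ℝ) (R β : ℝ) : ℝ :=
  ({q : Fin N × Fin N | x q.1 - x q.2 ∈ Set.Ioc 0 β}.ncard : ℝ) / R

/-- the sum of `K` over the pairs with difference at least `A`, divided by `R` -/
noncomputable def ks {N : ℕ} (x : Fin N → ℝ) (R A : ℝ) (K : ℝ → ℝ) : ℝ :=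
  (∑ q ∈ (Finset.univ : Finset (Fin N × Fin N)).filter (fun q => A ≤ x q.1 - x q.2),
    K (x q.1 - x q.2)) / R

/-- a family of configurations with the two bounds for the pair sums -/
structure Cg (C1 : ℝ) where
  /-- the number of points -/
  N : ℝ → ℕ
  /-- the points -/
  x : (T : ℝ) → Fin (N T) → ℝ
  /-- the length -/
  R : ℝ → ℝ
  hR : ∀ᶠ T in atTop, 0 < R T
  hN : Tendsto (fun T => (N T : ℝ) / R T) atTop (𝓝 1)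
  n1 : ∀ (n : ℕ) (b0 : ℝ), 0 < b0 → b0 ≤ 1 / 12 → ∀ᶠ T in atTop,
    ∑ i ∈ range n, (ssum (x T) (R T) (b0 / 2 ^ i) - (1 / (b0 / 2 ^ i) + b0 / 2 ^ i / 6)) /
      (b0 / 2 ^ i) ^ 2 ≤ C1 * (Real.sqrt n + 1)
  n2 : ∀ b : ℝ, 0 < b → b ≤ 1 / 12 → ∀ η : ℝ, 0 < η → ∀ᶠ T in atTop, 1 / b - η ≤ ssum (x T) (R T) b

variable {C1 : ℝ}

/-- the upper half for the differences at least `A` -/
def UpA (D : Cg C1) (l : Filter ℝ) (A : ℝ) : Prop := ∀ α β : ℝ, A ≤ α → α < β → ∀ ε : ℝ, 0 < ε →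
  ∀ᶠ T in l, pc (D.x T) (D.R T) α β ≤ (∫ u in α..β, Fg u) + ε

/-- the lower half for the differences at least `A` -/
def LoA (D : Cg C1) (l : Filter ℝ) (A : ℝ) : Prop := ∀ α β : ℝ, A ≤ α → α < β → ∀ ε : ℝ, 0 < ε →
  ∀ᶠ T in l, (∫ u in α..β, Fg u) - ε ≤ pc (D.x T) (D.R T) α β

/-- TASK NB.  Uniform bound for the number of pairs with difference in an interval of length one.
Proof.  `n1` with `n = 1`, `b0 = 1/12` bounds `ssum (1/12) ≤ C`; `kk(πu/6) ≥ 1/2` for `|u| ≤ 1` (`kk 0 - kk x ≤ x²/30`; or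
`kk 0 - kk x ≤ x²` and `(π/6)² ≤ 0.28`, so `kk ≥ 1/3`), so `#{q : |x_1 - x_2| ≤ 1} ≤ 3 C R`.  With `B_m = #{j : m ≤ x_j < m+1}`
(`m ∈ ℤ`), `∑ B_m² ≤ #{q : |x_1-x_2| ≤ 1}`, and the number of `q` with `x_1 - x_2 ∈ [y, y+1]` is at most
`∑_m B_m (B_{m-k-2} + B_{m-k-1} + B_{m-k}) ≤ 3 ∑ B_m²`, `k = ⌊y⌋`. -/
def S_NB : Prop := ∀ C1 : ℝ, 0 < C1 → ∃ C : ℝ, 0 < C ∧ ∀ D : Cg C1, ∀ᶠ T in atTop, ∀ y : ℝ,
  pc (D.x T) (D.R T) y (y + 1) ≤ C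

/-- TASK UP.  Sums over pairs from the upper half.
Proof.  Choose `B0` with `∑_{m ≥ B0} B C ka m ≤ ε/4` (`C` from `S_NB`: the pairs with difference `≥ B0` contribute at most that;
also `∫_{B0}^∞ K ≤ ε/4`), and a partition of `[A, B0]` containing `α`, `β` (`B0 ≥ β`) so fine that the oscillation of `K` on each of the
finitely many pieces is at most `ε'`.  Let `K' = K - κ 1_{[α,β]} ≥ 0`.  Then `∑_{x_1-x_2 ≥ A} K = κ R pc α β + ∑ K'`, and on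
a piece `[p,q]` the sum of `K'` is at most `R sup K' · pc p q ≤ R sup K' (∫_p^q Fg + ε'')`, `0 ≤ Fg ≤ 1`.  Sum up. -/
def S_UP : Prop := ∀ (C1 : ℝ) (D : Cg C1) (l : Filter ℝ), 0 < C1 → l ≤ atTop → ∀ A : ℝ, 0 < A → UpA D l A →
  ∀ (K : ℝ → ℝ) (B : ℝ), Continuous K → (∀ u, 0 ≤ u → 0 ≤ K u ∧ K u ≤ B * ka u) →
  ∀ α β κ : ℝ, A ≤ α → α < β → 0 ≤ κ → (∀ u ∈ Set.Icc α β, κ ≤ K u) → ∀ ε : ℝ, 0 < ε → ∀ᶠ T in l,
    ks (D.x T) (D.R T) A K ≤ (∫ u in Set.Ioi A, K u * Fg u) -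
      κ * ((∫ u in α..β, Fg u) - pc (D.x T) (D.R T) α β) + ε

/-- TASK LO.  Sums over pairs from the lower half.
Proof.  As for `S_UP`: `K' = K - κ 1_{[α,β]} ≥ 0`; choose `B0` with `∫_{B0}^∞ K Fg ≤ ε/4`; on a piece `[p,q)` of a fine partition of
`[A, B0]` containing `α`, `β`, the sum of `K'` over the pairs with difference in `[p', q']`, `p < p' < q' < q` (`p'`, `q'` close to
`p`, `q`; the closed intervals of different pieces are disjoint and avoid the end points `α`, `β`), is at least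
`R inf_{(p,q)} K' (∫_{p'}^{q'} Fg - ε'')`.  The pairs left out contribute `≥ 0`. -/
def S_LO : Prop := ∀ (C1 : ℝ) (D : Cg C1) (l : Filter ℝ), 0 < C1 → l ≤ atTop → ∀ A : ℝ, 0 < A → LoA D l A →
  ∀ (K : ℝ → ℝ) (B : ℝ), Continuous K → (∀ u, 0 ≤ u → 0 ≤ K u ∧ K u ≤ B * ka u) →
  ∀ α β κ : ℝ, A ≤ α → α < β → 0 ≤ κ → (∀ u ∈ Set.Icc α β, κ ≤ K u) → ∀ ε : ℝ, 0 < ε → ∀ᶠ T in l,
    (∫ u in Set.Ioi A, K u * Fg u) + κ * (pc (D.x T) (D.R T) α β - ∫ u in α..β, Fg u) - ε ≤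
      ks (D.x T) (D.R T) A K

/-- the test function of the main inequality -/
noncomputable def Kn (n : ℕ) (b0 δ u : ℝ) : ℝ :=
  ∑ i ∈ range n, (kk (2 * Real.pi * δ * u) - kk (2 * Real.pi * (b0 / 2 ^ i) * u)) / (b0 / 2 ^ i) ^ 2

/-- TASK KN.  The test function.
Proof.  `S_KK`.  For `0 < δ ≤ b0/2^n` all terms are `≥ 0` (`kk` is decreasing), at most
`(kk 0 - kk(2πb_i u))/b_i² ≤ (2πu)²`; and `≤ C ka`-type decay for fixed `n, b0, δ`.  For the lower bound on `[α, β]`, `b0 = 1/12`: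
let `i0` be such that `2π b_i β ≤ 1` for `i ≥ i0`; for these `i` the term is at least
`(2πu)²/60 - (kk 0 - kk(2πδu))/b_i² ≥ (2πα)²/60 - (2πδβ)²/b_i² ≥ α²/2 - (2πδβ)²/b_n²` (`(2π)²/60 ≥ 0.65`); for `n ≥ 2 i0` and
`δ` small the sum over `i0 ≤ i < n` is at least `n α²/8`. -/
def S_KN : Prop := ∃ C : ℝ, 0 < C ∧
  (∀ (n : ℕ) (b0 δ : ℝ), 0 < b0 → b0 ≤ 1 / 12 → 0 < δ → δ ≤ b0 / 2 ^ n →
    Continuous (Kn n b0 δ) ∧ Kn n b0 δ 0 = 0 ∧ (∀ u, Kn n b0 δ (-u) = Kn n b0 δ u) ∧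
    (∀ u, 0 ≤ u → 0 ≤ Kn n b0 δ u ∧ Kn n b0 δ u ≤ C * n * u ^ 2) ∧
    ∃ B : ℝ, ∀ u, 0 ≤ u → Kn n b0 δ u ≤ B * ka u) ∧
  (∀ α β : ℝ, 0 < α → α < β → ∃ n0 : ℕ, ∀ n : ℕ, n0 ≤ n → ∃ δ0 : ℝ, 0 < δ0 ∧ ∀ δ : ℝ, 0 < δ → δ ≤ δ0 →
    ∀ u ∈ Set.Icc α β, n * α ^ 2 / 8 ≤ Kn n (1 / 12) δ u)

/-- TASK B0.  The main identity.
Proof.  Write `ssum b = (kk 0) dg + (2/R) ∑_{x_1 > x_2} kk(2πb(x_1-x_2))` (`kk` even) and `S_GUE`: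
`1/b + b/6 = 2/3 + 2 ∫ kk(2πbu) Fg`.  In the combination `∑_i (ssum b_i - GUE b_i)/b_i² - ∑_i (ssum δ - GUE δ)/b_i²` the terms with
`dg` and `2/3` cancel, and what remains is `-2 (1/R) ∑_{x_1 > x_2} Kn(x_1-x_2) + 2 ∫ Kn Fg`.  With `n1`, and `n2` at `b = δ`:
`ssum δ - GUE δ ≥ -δ/6 - η`; choose `δ` with `δ ∑ 1/b_i² ≤ 1` and `η` with `η ∑ 1/b_i² ≤ 1/2`, total `≤ C1(√n+1) + 1`.
(`ks x R 0 K` is the sum over the pairs with difference `≥ 0`; `Kn 0 = 0`.) -/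
def S_B0 : Prop := ∀ (C1 : ℝ) (D : Cg C1), 0 < C1 → ∀ n : ℕ, ∃ δ0 : ℝ, 0 < δ0 ∧ δ0 ≤ 1 / 12 / 2 ^ n ∧ ∀ δ : ℝ, 0 < δ →
  δ ≤ δ0 → ∀ᶠ T in atTop, 2 * (∫ u in Set.Ioi (0 : ℝ), Kn n (1 / 12) δ u * Fg u) -
    2 * ks (D.x T) (D.R T) 0 (Kn n (1 / 12) δ) ≤ C1 * (Real.sqrt n + 1) + 1

/-- TASK B1.  The upper half far away implies the lower half up to an error.
Proof.  Given `A ≤ α < β`, `ε`.  `S_KN`: `n ≥ n0`, `δ ≤ δ0` small (also for `S_B0`), `κ = nα²/8`, `K = Kn n (1/12) δ`.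
`ks 0 K = (sum over differences in [0, A)) + ks A K`; the first sum is at most `C n A² · pc 0 A ≤ C n A² · C(1+A)` (`S_NB`, at most
`A + 1` unit intervals), the second one is bounded by `S_UP` (with `ε = 1`).  `S_B0`:
`κ (∫_α^β Fg - pc α β) ≤ C n A²(1+A) + 1 + (C1(√n+1)+1)/2 - ∫_0^A K Fg`, the last integral being `≥ 0`.  Divide by
`κ = nα²/8` and take `n` large. -/
def S_B1 : Prop := ∀ C1 : ℝ, 0 < C1 → ∃ C : ℝ, 0 < C ∧ ∀ (D : Cg C1) (l : Filter ℝ), l ≤ atTop → ∀ A : ℝ, 0 < A →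
  UpA D l A → ∀ α β : ℝ, A ≤ α → α < β → ∀ ε : ℝ, 0 < ε → ∀ᶠ T in l,
    (∫ u in α..β, Fg u) - C * A ^ 2 * (1 + A) / α ^ 2 - ε ≤ pc (D.x T) (D.R T) α β

/-- TASK B2.  The lower half implies that there are few coincidences.
Proof.  `dg ≥ N/R → 1`.  `n1` with `n = 1`, `b0 = δ`: `ssum δ ≤ 1/δ + δ/6 + 2 C1 δ²`, and
`ssum δ = (2/3) dg + 2 (1/R) ∑_{x_1 > x_2} kk(2πδ(x_1-x_2)) ≥ (2/3) dg + 2 ks A kk(2πδ·) ≥ (2/3) dg + 2 ∫_A^∞ kk(2πδu) Fg - ε`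
(`S_LO` with `κ = 0`), `A` small, `0 ≤ kk Fg ≤ 1`; and `S_GUE`.  So `(2/3) dg ≤ 2/3 + 2 A + 2 C1 δ² + ε`. -/
def S_B2 : Prop := ∀ (C1 : ℝ) (D : Cg C1) (l : Filter ℝ), 0 < C1 → l ≤ atTop → (∀ A : ℝ, 0 < A → LoA D l A) →
  Tendsto (fun T => dg (D.x T) (D.R T)) l (𝓝 1)

/-- TASK B3.  The lower half implies the upper half, and that there are few close pairs.
Proof.  As in `S_B2`, with `S_LO` for `κ = kk(2πδβ)` on `[α, β]` (`kk` is decreasing on `[0,∞)`):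
`(2/3) dg + 2 ∫_A^∞ kk(2πδu) Fg + 2κ (pc α β - ∫_α^β Fg) - ε ≤ ssum δ ≤ 2/3 + 2 ∫_0^∞ kk(2πδu) Fg + 2 C1 δ²` and `dg ≥ 1 - ε`
eventually: `2κ (pc α β - ∫_α^β Fg) ≤ 2A + 2 C1 δ² + 2ε`; `κ → 2/3` as `δ → 0`.
For `p0 β`: `p0 β ≥ pc α β` gives the lower bound (`α → 0`, `∫_0^α Fg ≤ α`); for the upper bound, the same inequality keeping the pairs
with difference in `(0, A)`: `2 kk(2πδA) · (number of these pairs)/R ≤ 2A + 2C1δ² + 2ε`, so their number is at most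
`C(A + δ² + ε) R`, and `p0 β ≤` this `+ pc A β`. -/
def S_B3 : Prop := ∀ (C1 : ℝ) (D : Cg C1) (l : Filter ℝ), 0 < C1 → l ≤ atTop → (∀ A : ℝ, 0 < A → LoA D l A) →
  (∀ A : ℝ, 0 < A → UpA D l A) ∧
  ∀ β : ℝ, 0 < β → Tendsto (fun T => p0 (D.x T) (D.R T) β) l (𝓝 (∫ u in (0 : ℝ)..β, Fg u))

end Pool.Agent.H606.OS
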