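import Pool.Agent.H606.OS.Stm
import Pool.Agent.H203.ME.ALL3
import Pool.Graph.R_seed8.W54.TCF.NT
import Pool.Graph.R_seed8.H382R2.Final0

/-! The zeros of zeta: local counts, asymptotic counts, mean square of the weighted counts. -/

open MeasureTheory Filter Topology Finset

namespace Pool.Agent.H606.OS

/-- the zeros with ordinate in `(0, T]` -/
noncomputable def zg (T : ℝ) : Finset ℂ := (SG.ZS_finite T).toFinset

/-- multiplicity -/
noncomputable def mr (s : ℂ) : ℝ := (H370.mult riemannZeta s : ℝ)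

theorem mem_zg {T : ℝ} {s : ℂ} : s ∈ zg T ↔
    riemannZeta s = 0 ∧ 0 < s.re ∧ s.re < 1 ∧ 0 < s.im ∧ s.im ≤ T := by
  unfold zg
  rw [Set.Finite.mem_toFinset]
  rfl

theorem mr_nonneg (s : ℂ) : 0 ≤ mr s := Nat.cast_nonneg _

theorem zg_mem (T : ℝ) (s : ℂ) (hs : s ∈ zg T) : 0 < s.im ∧ s.im ≤ T ∧ 0 < s.re ∧ s.re < 1 := by
  rw [mem_zg] at hs
  exact ⟨hs.2.2.2.1, hs.2.2.2.2, hs.2.1, hs.2.2.1⟩

theorem zg_coh (T T' : ℝ) (h : T ≤ T') (s : ℂ) : s ∈ zg T ↔ s ∈ zg T' ∧ s.im ≤ T := by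
  rw [mem_zg, mem_zg]
  constructor
  · rintro ⟨h1, h2, h3, h4, h5⟩
    exact ⟨⟨h1, h2, h3, h4, h5.trans h⟩, h5⟩
  · rintro ⟨⟨h1, h2, h3, h4, _⟩, h5⟩
    exact ⟨h1, h2, h3, h4, h5⟩

theorem sum_zg (T : ℝ) : ∑ s ∈ zg T, mr s = (SG.NZ T : ℝ) := by
  rw [SG.NZ_eq]
  push_cast
  rfl

theorem mem_zw {T : ℝ} (hT : 1 ≤ T) {s : ℂ} : s ∈ zw zg T ↔ s ∈ H370.Zf riemannZeta T (3 * T / 2) := by
  unfold zw
  rw [Finset.mem_filter, mem_zg, H370.mem_Zf H370.good_zeta hT]
  constructor
  · rintro ⟨⟨h1, h2, h3, h4, h5⟩, h6⟩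
    exact ⟨h2, h3, h6, h5, h1⟩
  · rintro ⟨h1, h2, h3, h4, h5⟩
    exact ⟨⟨h5, h1, h2, by linarith, h4⟩, h3⟩

theorem zw_eq {T : ℝ} (hT : 1 ≤ T) : zw zg T = H370.Zf riemannZeta T (3 * T / 2) :=
  Finset.ext fun _ => mem_zw hT

/-- local counts, upper part -/
theorem loc_hi : ∃ C : ℝ, 0 < C ∧ ∀ T t : ℝ, 4 ≤ t →
    ∑ s ∈ (zg T).filter (fun s => |s.im - t| ≤ 1), mr s ≤ C * Real.log (t + 1) := by
  obtain ⟨C, hC, h⟩ := H370.zcount H370.good_zeta
  refine ⟨2 * C, by positivity, fun T t ht => ?_⟩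
  have h1 := h (t - 1) (by linarith)
  have h2 := h (t + 1) (by linarith)
  rw [H370.NN_eq H370.good_zeta (by linarith)] at h1 h2
  push_cast at h1 h2
  have hsub : (zg T).filter (fun s => |s.im - t| ≤ 1) ⊆
      H370.Zf riemannZeta (t - 1 - 1) (t - 1 + 1) ∪ H370.Zf riemannZeta (t + 1 - 1) (t + 1 + 1) := by
    intro s hs
    rw [Finset.mem_filter, mem_zg, abs_le] at hs
    obtain ⟨⟨a1, a2, a3, a4, a5⟩, a6, a7⟩ := hs
    rw [Finset.mem_union, H370.mem_Zf H370.good_zeta (by linarith),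
      H370.mem_Zf H370.good_zeta (by linarith)]
    by_cases hc : s.im ≤ t
    · left; exact ⟨a2, a3, by linarith, by linarith, a1⟩
    · right; push Not at hc; exact ⟨a2, a3, by linarith, by linarith, a1⟩
  have h3 : Real.log (t - 1) ≤ Real.log (t + 1) := Real.log_le_log (by linarith) (by linarith)
  calc ∑ s ∈ (zg T).filter (fun s => |s.im - t| ≤ 1), mr s ≤
      ∑ s ∈ H370.Zf riemannZeta (t - 1 - 1) (t - 1 + 1) ∪
        H370.Zf riemannZeta (t + 1 - 1) (t + 1 + 1), mr s :=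
        Finset.sum_le_sum_of_subset_of_nonneg hsub fun _ _ _ => mr_nonneg _
    _ ≤ ∑ s ∈ H370.Zf riemannZeta (t - 1 - 1) (t - 1 + 1), mr s +
        ∑ s ∈ H370.Zf riemannZeta (t + 1 - 1) (t + 1 + 1), mr s := by
        rw [← Finset.sum_union_inter]
        have : 0 ≤ ∑ s ∈ H370.Zf riemannZeta (t - 1 - 1) (t - 1 + 1) ∩
          H370.Zf riemannZeta (t + 1 - 1) (t + 1 + 1), mr s :=
          Finset.sum_nonneg fun _ _ => mr_nonneg _
        linarith
    _ ≤ C * Real.log (t - 1) + C * Real.log (t + 1) := add_le_add h1 h2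
    _ ≤ 2 * C * Real.log (t + 1) := by nlinarith

theorem loc_zeta : ∃ C : ℝ, 0 < C ∧ ∀ T : ℝ, 10 ≤ T → ∀ t : ℝ,
    ∑ s ∈ (zg T).filter (fun s => |s.im - t| ≤ 1), mr s ≤ C * Real.log T := by
  obtain ⟨C, hC, h⟩ := loc_hi
  refine ⟨2 * C + SG.NZ 5, by positivity, fun T hT t => ?_⟩
  have hlog : 1 ≤ Real.log T := by
    rw [Real.le_log_iff_exp_le (by linarith)]
    have := Real.exp_one_lt_d9
    linarith
  have hNZ : (0 : ℝ) ≤ SG.NZ 5 := Nat.cast_nonneg _
  rcases le_or_gt 4 t with ht | ht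
  · rcases le_or_gt t (T + 1) with ht2 | ht2
    · have h1 := h T t ht
      have h2 : Real.log (t + 1) ≤ 2 * Real.log T := by
        have : Real.log (t + 1) ≤ Real.log (T ^ 2) := Real.log_le_log (by linarith) (by nlinarith)
        rwa [Real.log_pow, Nat.cast_ofNat] at this
      nlinarith
    · have : (zg T).filter (fun s => |s.im - t| ≤ 1) = ∅ := by
        apply Finset.filter_eq_empty_iff.2
        intro s hs
        rw [mem_zg] at hs
        rw [not_le, lt_abs]
        right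
        linarith [hs.2.2.2.2]
      rw [this, Finset.sum_empty]
      positivity
  · have hsub : (zg T).filter (fun s => |s.im - t| ≤ 1) ⊆ zg 5 := by
      intro s hs
      rw [Finset.mem_filter, mem_zg, abs_le] at hs
      rw [mem_zg]
      exact ⟨hs.1.1, hs.1.2.1, hs.1.2.2.1, hs.1.2.2.2.1, by linarith [hs.2.2]⟩
    calc ∑ s ∈ (zg T).filter (fun s => |s.im - t| ≤ 1), mr s ≤ ∑ s ∈ zg 5, mr s :=
          Finset.sum_le_sum_of_subset_of_nonneg hsub fun _ _ _ => mr_nonneg _
      _ = SG.NZ 5 := sum_zg 5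
      _ ≤ (2 * C + SG.NZ 5) * Real.log T := by nlinarith

theorem sum_zw {T : ℝ} (hT : 0 ≤ T) : ∑ s ∈ zw zg T, mr s = (SG.NZ (3 * T / 2) : ℝ) - SG.NZ T := by
  have h1 := sum_zg (3 * T / 2)
  have h2 := sum_zg T
  have h3 : zg T = (zg (3 * T / 2)).filter (fun s => ¬ T < s.im) := by
    ext s
    rw [Finset.mem_filter, not_lt]
    exact zg_coh _ _ (by linarith) s
  rw [← h1, ← h2, h3]
  unfold zw
  rw [← Finset.sum_filter_add_sum_filter_not (zg (3 * T / 2)) (fun s => T < s.im)]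
  ring

theorem cnt_zeta (ε : ℝ) (hε : 0 < ε) : ∀ᶠ T in atTop,
    |(∑ s ∈ zw zg T, mr s) - T * Real.log T / (4 * Real.pi)| ≤ ε * (T * Real.log T) := by
  have hpi := Real.pi_pos
  have hpi3 := Real.pi_gt_three
  obtain ⟨T0, hT0, h⟩ := Pool.Agent.W54.TCF.NT_asymp' (ε / 2) (by positivity)
  have hNN : ∀ T : ℝ, SG.NZ T = H370.NN riemannZeta 0 T := by
    intro T
    unfold SG.NZ H370.NN
    apply finsum_mem_congr
    · ext s
      simp only [Set.mem_ofPred_eq, H370.zset]
      tauto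
    · intro s _
      rfl
  filter_upwards [eventually_ge_atTop T0, eventually_ge_atTop 10,
    Real.tendsto_log_atTop.eventually_ge_atTop (4 / ε + 1)] with T h1 h2 h3
  obtain ⟨a1, a2⟩ := h T h1
  obtain ⟨b1, b2⟩ := h (3 * T / 2) (by linarith)
  rw [← hNN] at a1 a2 b1 b2
  rw [sum_zw (by linarith)]
  set L := Real.log T with hL
  have hL1 : 1 ≤ L := by
    have : 0 < 4 / ε := by positivity
    linarith
  have hlog : Real.log (3 * T / 2) = L + Real.log (3 / 2) := by
    rw [hL, ← Real.log_mul (by linarith) (by norm_num)]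
    congr 1; ring
  have hlog2 : 0 ≤ Real.log (3 / 2) := Real.log_nonneg (by norm_num)
  have hlog3 : Real.log (3 / 2) ≤ 1 / 2 := by
    have := Real.log_le_sub_one_of_pos (show (0:ℝ) < 3 / 2 by norm_num)
    linarith
  rw [hlog] at b1 b2
  have hεL : 4 ≤ ε * L := by
    have : 4 / ε ≤ L := by linarith
    rw [div_le_iff₀ hε] at this
    linarith
  have hTp : 0 < T := by linarith
  set u := T / (2 * Real.pi) with hu
  have hu0 : 0 < u := by positivity
  have hu1 : u ≤ T / 6 := by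
    rw [hu]
    apply div_le_div_of_nonneg_left hTp.le (by norm_num)
    linarith
  have e1 : 3 * T / 2 / (2 * Real.pi) = 3 / 2 * u := by rw [hu]; field_simp
  rw [e1] at b1 b2
  have e2 : T * L / (4 * Real.pi) = u * L / 2 := by rw [hu]; field_simp; norm_num
  rw [e2, abs_le]
  have hTL : u * L ≤ T * L / 6 := by nlinarith
  have k1 : T * 4 ≤ T * (ε * L) := mul_le_mul_of_nonneg_left hεL hTp.le
  have k2 : u * Real.log (3/2) ≤ T / 6 * (1 / 2) := by
    apply mul_le_mul hu1 hlog3 hlog2 (by positivity)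
  have k3 : 0 ≤ u * Real.log (3/2) := by positivity
  have k4 : ε * (u * L) ≤ ε * (T * L / 6) := mul_le_mul_of_nonneg_left hTL hε.le
  have k5 : ε * (u * Real.log (3/2)) ≤ ε * (T * L / 12) := by
    apply mul_le_mul_of_nonneg_left _ hε.le
    calc u * Real.log (3/2) ≤ T / 6 * (1 / 2) := k2
      _ ≤ T * L / 12 := by nlinarith
  constructor
  · nlinarith
  · nlinarith

theorem w2_zeta : ∃ C : ℝ, 0 < C ∧ ∀ᶠ T in atTop,
    ∫ t : ℝ, wn (zw zg T) (fun s => mr s * wt T s) Complex.im (Real.log T) t ^ 2 ≤ C * T := by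
  obtain ⟨C, T0, hC, hT0, h⟩ := Pool.Agent.H203.ME.p_W2
  refine ⟨C, hC, ?_⟩
  filter_upwards [eventually_ge_atTop T0] with T hT
  have hT10 : 10 ≤ T := hT0.trans hT
  have hlog : 0 < Real.log T := Real.log_pos (by linarith)
  refine le_trans ?_ (h T hT)
  have hwt : ∀ s, 0 ≤ wt T s := fun s => by unfold wt; positivity
  have hww : ∀ s, Pool.Agent.H203.ME.ww T s = wt T s := fun s => rfl
  have hle : ∀ t, wn (zw zg T) (fun s => mr s * wt T s) Complex.im (Real.log T) t ≤
      Pool.Agent.H203.ME.cw T t (t + 1 / Real.log T) := by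
    intro t
    unfold wn Pool.Agent.H203.ME.cw
    have hsub : zw zg T ⊆ H370.Zf riemannZeta T (2 * T) := by
      intro s hs
      rw [mem_zw (by linarith), H370.mem_Zf H370.good_zeta (by linarith)] at hs
      rw [H370.mem_Zf H370.good_zeta (by linarith)]
      exact ⟨hs.1, hs.2.1, hs.2.2.1, by linarith [hs.2.2.2.1], hs.2.2.2.2⟩
    refine Finset.sum_le_sum_of_subset_of_nonneg hsub fun s _ _ => ?_
    refine mul_nonneg (mul_nonneg (mr_nonneg _) (hwt s)) (Set.indicator_nonneg (fun _ _ => zero_le_one) _)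
  have hnn : ∀ t, 0 ≤ wn (zw zg T) (fun s => mr s * wt T s) Complex.im (Real.log T) t := by
    intro t
    unfold wn
    exact Finset.sum_nonneg fun s _ => mul_nonneg (mul_nonneg (mr_nonneg _) (hwt s))
      (Set.indicator_nonneg (fun _ _ => zero_le_one) _)
  -- integrability of the square of `cw`
  have hint : Integrable (fun t : ℝ => Pool.Agent.H203.ME.cw T t (t + 1 / Real.log T) ^ 2) := by
    have h1 : (fun t : ℝ => Pool.Agent.H203.ME.cw T t (t + 1 / Real.log T) ^ 2) =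
        fun t => ∑ z ∈ H370.Zf riemannZeta T (2 * T), ∑ z' ∈ H370.Zf riemannZeta T (2 * T),
          ((Pool.Agent.H203.ME.mz z : ℝ) * Pool.Agent.H203.ME.ww T z *
            ((Pool.Agent.H203.ME.mz z' : ℝ) * Pool.Agent.H203.ME.ww T z')) *
          ((Set.Ico (z.im - 1 / Real.log T) z.im ∩ Set.Ico (z'.im - 1 / Real.log T) z'.im).indicator
            (fun _ => (1 : ℝ)) t) := by
      funext t
      unfold Pool.Agent.H203.ME.cw
      rw [sq, Finset.sum_mul_sum]
      refine Finset.sum_congr rfl fun z _ => Finset.sum_congr rfl fun z' _ => ?_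
      have e : ∀ x : ℝ, (Set.Ioc t (t + 1 / Real.log T)).indicator (fun _ => (1 : ℝ)) x =
          (Set.Ico (x - 1 / Real.log T) x).indicator (fun _ => (1 : ℝ)) t := by
        intro x
        by_cases hx : x ∈ Set.Ioc t (t + 1 / Real.log T)
        · rw [Set.indicator_of_mem hx, Set.indicator_of_mem]
          exact ⟨by linarith [hx.2], hx.1⟩
        · rw [Set.indicator_of_notMem hx, Set.indicator_of_notMem]
          intro hx2
          exact hx ⟨hx2.2, by linarith [hx2.1]⟩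
      have e2 : (Set.Ico (z.im - 1 / Real.log T) z.im ∩
          Set.Ico (z'.im - 1 / Real.log T) z'.im).indicator (fun _ => (1 : ℝ)) t =
          (Set.Ico (z.im - 1 / Real.log T) z.im).indicator (fun _ => (1 : ℝ)) t *
          (Set.Ico (z'.im - 1 / Real.log T) z'.im).indicator (fun _ => (1 : ℝ)) t := by
        by_cases h1 : t ∈ Set.Ico (z.im - 1 / Real.log T) z.im
        · by_cases h2 : t ∈ Set.Ico (z'.im - 1 / Real.log T) z'.im
          · rw [Set.indicator_of_mem h1, Set.indicator_of_mem h2,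
              Set.indicator_of_mem (Set.mem_inter h1 h2)]
            norm_num
          · rw [Set.indicator_of_notMem h2, Set.indicator_of_notMem (fun h => h2 h.2), mul_zero]
        · rw [Set.indicator_of_notMem h1, Set.indicator_of_notMem (fun h => h1 h.1), zero_mul]
      rw [e, e, e2]
      ring
    rw [h1]
    refine integrable_finsetSum _ fun z _ => integrable_finsetSum _ fun z' _ => ?_
    apply Integrable.const_mul
    refine (integrable_indicator_iff (measurableSet_Ico.inter measurableSet_Ico)).2 ?_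
    have ha : volume (Set.Ico (z.im - 1 / Real.log T) z.im ∩
        Set.Ico (z'.im - 1 / Real.log T) z'.im) ≠ ⊤ := by
      refine ne_of_lt (lt_of_le_of_lt (measure_mono Set.inter_subset_left) ?_)
      rw [Real.volume_Ico]
      exact ENNReal.ofReal_lt_top
    have hb : ‖(1 : ℝ)‖ₑ ≠ ⊤ := by simp
    exact integrableOn_const ha hb
  refine integral_mono_of_nonneg (Eventually.of_forall fun t => sq_nonneg _) hint
    (Eventually.of_forall fun t => ?_)
  exact pow_le_pow_left₀ (hnn t) (hle t) 2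

end Pool.Agent.H606.OS
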