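import Pool.Agent.H606.OS.Z1
import Pool.Agent.H444.UI2

/-! The zeros of zeta: the mean square of the complex field. -/

open MeasureTheory Filter Topology Finset Complex

namespace Pool.Agent.H606.OS

open Pool.Agent.H444

theorem fz_eq (z : ℂ) : fz z = SS z := by
  unfold fz SS
  apply intervalIntegral.integral_congr
  intro u hu
  rw [Set.uIcc_of_le (by norm_num)] at hu
  simp only
  have : tent u = 1 - |u| := by
    unfold tent
    rw [max_eq_right]
    have := abs_le.2 hu
    linarith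
  rw [this]

theorem fc_neg (x v : ℝ) : fc x (-v) = fc x v := by
  unfold fc
  congr 1
  funext u
  rw [mul_neg, Real.cosh_neg]

theorem exp_wt {T b : ℝ} (hT : 1 ≤ T) (hb : 0 < b) (hb12 : b ≤ 1 / 12) (s : ℂ) :
    Real.exp (b * Real.log T * |1 / 2 - s.re|) ≤ 2 * wt T s := by
  have hL : 0 ≤ Real.log T := Real.log_nonneg hT
  obtain ⟨z, hz⟩ : ∃ z : ℝ, z = Real.log T * |s.re - 1 / 2| := ⟨_, rfl⟩
  have hz0 : 0 ≤ z := by rw [hz]; positivity
  have e1 : b * Real.log T * |1 / 2 - s.re| = b * z := by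
    rw [hz, abs_sub_comm]; ring
  have e2 : wt T s = 1 + z ^ 2 * Real.exp (z / 4) := by
    unfold wt
    rw [hz, mul_pow, mul_pow, sq_abs]
  rw [e1, e2]
  have h1 : Real.exp (b * z) ≤ Real.exp (z / 12) := by
    apply Real.exp_le_exp.2
    nlinarith
  refine h1.trans ?_
  rcases le_or_gt 1 z with h | h
  · have h2 : Real.exp (z / 12) ≤ Real.exp (z / 4) := Real.exp_le_exp.2 (by linarith)
    have h3 : 1 * Real.exp (z / 4) ≤ z ^ 2 * Real.exp (z / 4) := by
      apply mul_le_mul_of_nonneg_right _ (Real.exp_pos _).le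
      nlinarith
    have h4 := Real.exp_pos (z / 4)
    linarith
  · have h2 : Real.exp (z / 12) ≤ Real.exp (1 / 2) := Real.exp_le_exp.2 (by linarith)
    have h3 : Real.exp (1 / 2) ≤ 2 := by
      have h4 := Real.exp_one_lt_d9
      have h5 : Real.exp (1 / 2) ^ 2 = Real.exp 1 := by rw [← Real.exp_nat_mul]; norm_num
      nlinarith [Real.exp_pos (1 / 2 : ℝ)]
    have h6 : 0 ≤ z ^ 2 * Real.exp (z / 4) := by positivity
    linarith

/-- the error term -/
noncomputable def EF (Z : Finset ℂ) (m : ℂ → ℝ) (T b t : ℝ) : ℝ :=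
  ∑ s ∈ Z, m s * (Real.exp (b * Real.log T * |1 / 2 - s.re|) * ka (1 * (s.im - t)))

/-- the complex field and the linear statistic with the Gaussian factor -/
theorem near (hGK : S_GK) : ∃ C : ℝ, 0 < C ∧ ∀ T b t : ℝ, 1 ≤ T → 0 < b → b ≤ 1 / 12 →
    1 ≤ b * Real.log T → ‖WW riemannZeta (tb b) T (3 * T / 2) (Real.log T) t -
      (CF (zw zg T) mr T b t : ℂ)‖ ≤ C / (b * Real.log T) ^ 2 * EF (zw zg T) mr T b t := by
  obtain ⟨C, hC, h⟩ := hGK
  refine ⟨C, hC, fun T b t hT hb hb12 hbL => ?_⟩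
  set L := Real.log T with hL
  have e0 : WW riemannZeta (tb b) T (3 * T / 2) L t = ∑ s ∈ H370.Zf riemannZeta T (3 * T / 2),
      (H370.mult riemannZeta s : ℂ) * kg SS (b * L) (H370.zz s - t) := by
    unfold WW kg
    refine Finset.sum_congr rfl fun s _ => ?_
    rw [FT_tb hb]
    congr 3
    push_cast
    ring
  rw [sum_sym H370.good_zeta hT] at e0
  rw [e0, zw_eq hT]
  unfold CF EF
  rw [Finset.mul_sum]
  push_cast
  rw [← Finset.sum_sub_distrib]
  refine (norm_sum_le _ _).trans (Finset.sum_le_sum fun s hs => ?_)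
  rw [H370.mem_Zf H370.good_zeta hT] at hs
  have hy : |1 / 2 - s.re| ≤ 1 / 2 := by
    rw [abs_le]; constructor <;> linarith [hs.1, hs.2.1]
  have h2 := h (b * L) (s.im - t) (1 / 2 - s.re) hbL hy
  have em : (mr s : ℂ) = (H370.mult riemannZeta s : ℂ) := by unfold mr; push_cast; rfl
  rw [em, ← mul_sub, norm_mul]
  have e1 : ‖((H370.mult riemannZeta s : ℕ) : ℂ)‖ = mr s := by unfold mr; simp
  rw [e1]
  have e3 : fc (b * L * (s.im - t)) (b * L * (s.re - 1 / 2)) =
      fc (b * L * (s.im - t)) (b * L * (1 / 2 - s.re)) := by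
    rw [← fc_neg]
    congr 1
    ring
  have e4 : C / (b * L) ^ 2 * (mr s * (Real.exp (b * L * |1 / 2 - s.re|) * ka (1 * (s.im - t)))) =
      mr s * (C * Real.exp (b * L * |1 / 2 - s.re|) / (b * L) ^ 2 * ka (s.im - t)) := by
    rw [one_mul]; ring
  rw [e4]
  apply mul_le_mul_of_nonneg_left _ (mr_nonneg _)
  refine le_trans (le_of_eq ?_) h2
  rw [e3]
  congr 1
  rw [fz_eq, fz_eq]
  unfold kg
  push_cast
  ring

theorem EF_sq (hL2K : S_L2K) : ∃ C : ℝ, 0 < C ∧ ∀ b : ℝ, 0 < b → b ≤ 1 / 12 →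
    ∀ᶠ T in atTop, ∫ t : ℝ, EF (zw zg T) mr T b t ^ 2 ≤ C * (Real.log T) ^ 2 * T := by
  obtain ⟨C, hC, h⟩ := hL2K
  obtain ⟨C2, hC2, h2⟩ := w2_zeta
  refine ⟨4 * C * C2, by positivity, fun b hb hb12 => ?_⟩
  filter_upwards [h2, eventually_ge_atTop 10] with T h3 hT
  set L := Real.log T with hL
  have hL1 : 1 ≤ L := by
    rw [hL, Real.le_log_iff_exp_le (by linarith)]
    have := Real.exp_one_lt_d9
    linarith
  have hwt : ∀ s, 0 ≤ wt T s := fun s => by unfold wt; positivity
  have h4 := h ℂ (zw zg T) (fun s => mr s * (2 * wt T s)) Complex.im L 1 one_pos hL1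
    (fun s _ => mul_nonneg (mr_nonneg _) (mul_nonneg (by norm_num) (hwt s)))
  have h5 : ∀ t, wn (zw zg T) (fun s => mr s * (2 * wt T s)) Complex.im L t =
      2 * wn (zw zg T) (fun s => mr s * wt T s) Complex.im L t := by
    intro t
    unfold wn
    rw [Finset.mul_sum]
    refine Finset.sum_congr rfl fun s _ => ?_
    ring
  have h6 : ∫ t : ℝ, wn (zw zg T) (fun s => mr s * (2 * wt T s)) Complex.im L t ^ 2 =
      4 * ∫ t : ℝ, wn (zw zg T) (fun s => mr s * wt T s) Complex.im L t ^ 2 := by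
    rw [← integral_const_mul]
    congr 1
    funext t
    rw [h5]; ring
  rw [h6, div_one] at h4
  have hka : ∀ x, 0 ≤ ka x := fun x => by unfold ka; positivity
  have hkc : Continuous ka := by
    unfold ka
    refine continuous_const.div (by fun_prop) fun x => ?_
    positivity
  have hnice : Integrable (fun t : ℝ =>
      (∑ s ∈ zw zg T, mr s * (2 * wt T s) * ka (1 * (s.im - t))) ^ 2) := by
    have e : (fun t : ℝ => (∑ s ∈ zw zg T, mr s * (2 * wt T s) * ka (1 * (s.im - t))) ^ 2) =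
        fun t => ∑ s ∈ zw zg T, ∑ s' ∈ zw zg T, (mr s * (2 * wt T s)) * (mr s' * (2 * wt T s')) *
          (ka (1 * (s.im - t)) * ka (1 * (s'.im - t))) := by
      funext t
      rw [sq, Finset.sum_mul_sum]
      refine Finset.sum_congr rfl fun s _ => Finset.sum_congr rfl fun s' _ => ?_
      ring
    rw [e]
    refine integrable_finsetSum _ fun s _ => integrable_finsetSum _ fun s' _ => ?_
    apply Integrable.const_mul
    have hi : Integrable (fun t : ℝ => ka (1 * (s'.im - t))) := by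
      have h7 : Integrable ka := by
        unfold ka
        refine integrable_inv_one_add_sq.congr (Eventually.of_forall fun x => ?_)
        simp
      simp_rw [one_mul]
      exact h7.comp_sub_left s'.im
    refine hi.bdd_mul (c := 1) (by fun_prop) (Eventually.of_forall fun t => ?_)
    rw [Real.norm_of_nonneg (hka _)]
    unfold ka
    rw [div_le_one (by positivity)]
    nlinarith [sq_nonneg (1 * (s.im - t))]
  calc ∫ t : ℝ, EF (zw zg T) mr T b t ^ 2 ≤
      ∫ t : ℝ, (∑ s ∈ zw zg T, mr s * (2 * wt T s) * ka (1 * (s.im - t))) ^ 2 := by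
        refine integral_mono_of_nonneg (Eventually.of_forall fun t => sq_nonneg _) hnice
          (Eventually.of_forall fun t => ?_)
        refine pow_le_pow_left₀ ?_ ?_ 2
        · unfold EF
          exact Finset.sum_nonneg fun s _ => mul_nonneg (mr_nonneg _)
            (mul_nonneg (Real.exp_pos _).le (hka _))
        · unfold EF
          refine Finset.sum_le_sum fun s _ => ?_
          rw [mul_assoc (mr s)]
          apply mul_le_mul_of_nonneg_left _ (mr_nonneg _)
          exact mul_le_mul_of_nonneg_right (exp_wt (by linarith) hb hb12 s) (hka _)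
    _ ≤ C * L ^ 2 * (4 * ∫ t : ℝ, wn (zw zg T) (fun s => mr s * wt T s) Complex.im L t ^ 2) := h4
    _ ≤ C * L ^ 2 * (4 * (C2 * T)) := by gcongr
    _ = 4 * C * C2 * L ^ 2 * T := by ring

theorem tb_int {b : ℝ} (hb : 0 < b) : tb b 0 ^ 2 + (∫ α in (-b)..b, |α| * tb b α ^ 2) =
    1 / b ^ 2 + 1 / 6 := by
  have h0 : tb b 0 = 1 / b := by
    unfold tb tent
    simp
  have h1 : ∫ α in (-b)..b, |α| * tb b α ^ 2 = ∫ v in (-1 : ℝ)..1, |v| * (1 - |v|) ^ 2 := by
    have h2 := intervalIntegral.integral_comp_div (a := -b) (b := b)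
      (fun v : ℝ => |v| * (1 - |v|) ^ 2) hb.ne'
    rw [neg_div, div_self hb.ne', smul_eq_mul] at h2
    have h3 : ∫ α in (-b)..b, |α| * tb b α ^ 2 =
        (1 / b) * ∫ α in (-b)..b, |α / b| * (1 - |α / b|) ^ 2 := by
      rw [← intervalIntegral.integral_const_mul]
      apply intervalIntegral.integral_congr
      intro α hα
      rw [Set.uIcc_of_le (by linarith)] at hα
      simp only
      have h4 : tent (α / b) = 1 - |α / b| := by
        unfold tent
        rw [max_eq_right]
        rw [abs_div, abs_of_pos hb]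
        have := abs_le.2 hα
        have : |α| / b ≤ 1 := (div_le_one hb).2 this
        linarith
      unfold tb
      rw [h4, abs_div, abs_of_pos hb]
      field_simp
    rw [h3, h2, ← mul_assoc, one_div, inv_mul_cancel₀ hb.ne', one_mul]
  have h5 : ∫ v in (-1 : ℝ)..1, |v| * (1 - |v|) ^ 2 = 1 / 6 := by
    rw [← intervalIntegral.integral_add_adjacent_intervals (b := 0)
      (by apply Continuous.intervalIntegrable; fun_prop)
      (by apply Continuous.intervalIntegrable; fun_prop)]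
    have e1 : ∫ v in (-1 : ℝ)..0, |v| * (1 - |v|) ^ 2 = ∫ v in (0 : ℝ)..1, v * (1 - v) ^ 2 := by
      have h6 := intervalIntegral.integral_comp_neg (a := -1) (b := 0)
        (fun v : ℝ => |v| * (1 - |v|) ^ 2)
      simp only [abs_neg, neg_zero, neg_neg] at h6
      rw [h6]
      apply intervalIntegral.integral_congr
      intro v hv
      rw [Set.uIcc_of_le (by norm_num)] at hv
      simp only [abs_of_nonneg hv.1]
    have e2 : ∫ v in (0 : ℝ)..1, |v| * (1 - |v|) ^ 2 = ∫ v in (0 : ℝ)..1, v * (1 - v) ^ 2 := by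
      apply intervalIntegral.integral_congr
      intro v hv
      rw [Set.uIcc_of_le (by norm_num)] at hv
      simp only [abs_of_nonneg hv.1]
    have e3 : ∫ v in (0 : ℝ)..1, v * (1 - v) ^ 2 = 1 / 12 := by
      have e4 : ∀ v : ℝ, v * (1 - v) ^ 2 = v - 2 * v ^ 2 + v ^ 3 := fun v => by ring
      simp_rw [e4]
      rw [intervalIntegral.integral_add (by apply Continuous.intervalIntegrable; fun_prop)
        (by apply Continuous.intervalIntegrable; fun_prop),
        intervalIntegral.integral_sub (by apply Continuous.intervalIntegrable; fun_prop)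
        (by apply Continuous.intervalIntegrable; fun_prop), intervalIntegral.integral_const_mul,
        integral_id, integral_pow, integral_pow]
      norm_num
    rw [e1, e2, e3]
    norm_num
  rw [h0, h1, h5, div_pow, one_pow]

theorem ms_zeta (hGK : S_GK) (hL2K : S_L2K) (hNICE : S_NICE) (b : ℝ) (hb : 0 < b) (hb12 : b ≤ 1 / 12)
    (η : ℝ) (hη : 0 < η) : ∀ᶠ T in atTop,
    ∫ t : ℝ, CF (zw zg T) mr T b t ^ 2 ≤ (1 / b ^ 2 + 1 / 6 + η) * (T / 2) := by
  obtain ⟨C, hC, hnear⟩ := near hGK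
  obtain ⟨C2, hC2, hEF⟩ := EF_sq hL2K
  have hE := hEF b hb hb12
  -- the mean square of the linear statistic
  have htbc : Continuous (tb b) := by
    unfold tb
    have := tent_cont
    fun_prop
  have htbB : ∀ x, |tb b x| ≤ 1 / b := by
    intro x
    unfold tb
    rw [abs_div, abs_of_pos hb, abs_of_nonneg (tent_nonneg _)]
    have := tent_le_one (x / b)
    gcongr
  have htbK : ∀ x y, |tb b x - tb b y| ≤ (1 / b ^ 2) * |x - y| := by
    intro x y
    unfold tb
    rw [← sub_div, abs_div, abs_of_pos hb]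
    have h := tent_lip (x / b) (y / b)
    rw [← sub_div, abs_div, abs_of_pos hb] at h
    calc |tent (x / b) - tent (y / b)| / b ≤ (|x - y| / b) / b := by gcongr
      _ = _ := by field_simp
  have htbs : ∀ x, b ≤ |x| → tb b x = 0 := by
    intro x hx
    unfold tb
    rw [tent_zero, zero_div]
    rw [abs_div, abs_of_pos hb, one_le_div hb]; exact hx
  obtain ⟨c0, hc0⟩ : ∃ c0 : ℝ, c0 = 1 / b ^ 2 + 1 / 6 := ⟨_, rfl⟩
  have hc00 : 0 < c0 := by rw [hc0]; positivity
  obtain ⟨θ, hθ⟩ : ∃ θ : ℝ, θ = min 1 (η / (4 * (c0 + 1))) := ⟨_, rfl⟩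
  have hθ0 : 0 < θ := by rw [hθ]; exact lt_min one_pos (by positivity)
  have hθ1 : θ ≤ 1 := by rw [hθ]; exact min_le_left _ _
  have hθ2 : θ * (4 * (c0 + 1)) ≤ η := by
    have : θ ≤ η / (4 * (c0 + 1)) := by rw [hθ]; exact min_le_right _ _
    rwa [le_div_iff₀ (by positivity)] at this
  obtain ⟨ε', hε'⟩ : ∃ ε' : ℝ, ε' = min 1 (η / 4) := ⟨_, rfl⟩
  have hε0 : 0 < ε' := by rw [hε']; exact lt_min one_pos (by positivity)
  have hε1 : ε' ≤ 1 := by rw [hε']; exact min_le_left _ _
  have hε2 : ε' ≤ η / 4 := by rw [hε']; exact min_le_right _ _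
  obtain ⟨T2, hT2, hW⟩ := WW_gen H370.good_zeta (a := H370.A2.lamC) H370.A2.lamC_norm
    (fun s h1 h2 => zeta_ld s h1 h2) htbc htbB htbK (by positivity) htbs (η0 := 1 / 2) (ε := ε') hb
    (by linarith) (by norm_num) hε0
  obtain ⟨Q, hQ⟩ : ∃ Q : ℝ, Q = (1 + 1 / θ) * ((C / b ^ 2) ^ 2 * C2) := ⟨_, rfl⟩
  have hQ0 : 0 < Q := by rw [hQ]; positivity
  filter_upwards [hE, eventually_ge_atTop T2, eventually_ge_atTop 10,
    Real.tendsto_log_atTop.eventually_ge_atTop (1 / b + 4 * Q / η + 1)] with T hE1 hTT2 hT10 hLL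
  set L := Real.log T with hL
  have h1b : 0 < 1 / b := by positivity
  have h4q : 0 < 4 * Q / η := by positivity
  have hL1 : 1 ≤ L := by linarith
  have hL0 : 0 < L := by linarith
  have hbL : 1 ≤ b * L := by
    have : 1 / b ≤ L := by linarith
    rw [div_le_iff₀ hb] at this
    linarith
  have hQL : Q / L ^ 2 ≤ η / 4 := by
    have h3 : 4 * Q / η ≤ L := by linarith
    rw [div_le_iff₀ hη] at h3
    rw [div_le_iff₀ (by positivity)]
    nlinarith
  have hTp : 0 < T := by linarith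
  have hsq : T ^ (1 / 2 : ℝ) ≤ T / 2 := by
    rw [← Real.sqrt_eq_rpow]
    rw [Real.sqrt_le_left (by positivity)]
    nlinarith
  obtain ⟨-, w2, w3⟩ := hW T hTT2 (T / 2) hsq le_rfl T le_rfl (by linarith)
  have e3 : T + T / 2 = 3 * T / 2 := by ring
  rw [e3] at w2 w3
  rw [tb_int hb, ← hc0] at w3
  obtain ⟨hKi, hmul, hadd, hcm, hni, hfld⟩ := hNICE
  have hCFn : Nice (CF (zw zg T) mr T b) := (hfld _ _ _ _ (by linarith) hb).2.1
  have hCFi : Integrable (fun t => CF (zw zg T) mr T b t ^ 2) := by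
    have := hni _ (hmul _ _ hCFn hCFn)
    refine this.congr (Eventually.of_forall fun t => ?_)
    simp only
    ring
  have hkn : ∀ x : ℝ, Nice (fun t => ka (1 * (x - t))) := by
    intro x
    refine ⟨?_, 2 * (1 + x ^ 2), fun t => ?_⟩
    · unfold ka
      refine continuous_const.div (by fun_prop) fun t => ?_
      positivity
    · change |1 / (1 + (1 * (x - t)) ^ 2)| ≤ 2 * (1 + x ^ 2) * (1 / (1 + t ^ 2))
      rw [one_mul, abs_of_nonneg (by positivity), mul_one_div, div_le_div_iff₀ (by positivity)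
        (by positivity)]
      nlinarith [sq_nonneg (x - t), sq_nonneg x, sq_nonneg (t - 2 * x), sq_nonneg (x * (x - t))]
  have hEFn : Nice (EF (zw zg T) mr T b) := by
    have : ∀ Z : Finset ℂ, Nice (EF Z mr T b) := by
      classical
      intro Z
      induction Z using Finset.induction_on with
      | empty =>
        refine ⟨?_, 0, fun t => ?_⟩
        · unfold EF; simp only [Finset.sum_empty]; exact continuous_const
        · unfold EF; simp
      | insert a Z ha ih =>
        have e : EF (insert a Z) mr T b = fun t => (mr a *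
            Real.exp (b * Real.log T * |1 / 2 - a.re|)) * ka (1 * (a.im - t)) + EF Z mr T b t := by
          funext t
          unfold EF
          rw [Finset.sum_insert ha]
          ring
        rw [e]
        exact hadd _ _ (hcm _ _ (hkn a.im)) ih
    exact this _
  have hEFi : Integrable (fun t => EF (zw zg T) mr T b t ^ 2) := by
    have := hni _ (hmul _ _ hEFn hEFn)
    refine this.congr (Eventually.of_forall fun t => ?_)
    simp only
    ring
  have hEF0 : ∀ t, 0 ≤ EF (zw zg T) mr T b t := by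
    intro t
    unfold EF
    refine Finset.sum_nonneg fun s _ => mul_nonneg (mr_nonneg _)
            (mul_nonneg (Real.exp_pos _).le ?_)
    unfold ka; positivity
  have hpt : ∀ t, CF (zw zg T) mr T b t ^ 2 ≤
      (1 + θ) * ‖WW riemannZeta (tb b) T (3 * T / 2) L t‖ ^ 2 +
      (1 + 1 / θ) * ((C / (b * L) ^ 2) ^ 2 * EF (zw zg T) mr T b t ^ 2) := by
    intro t
    have h1 := hnear T b t (by linarith) hb hb12 hbL
    rw [← hL] at h1
    obtain ⟨w, hw⟩ : ∃ w : ℝ, w = ‖WW riemannZeta (tb b) T (3 * T / 2) L t‖ := ⟨_, rfl⟩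
    obtain ⟨e, he⟩ : ∃ e : ℝ, e = C / (b * L) ^ 2 * EF (zw zg T) mr T b t := ⟨_, rfl⟩
    have h2 : |CF (zw zg T) mr T b t| ≤ w + e := by
      have h3 : ‖(CF (zw zg T) mr T b t : ℂ)‖ = |CF (zw zg T) mr T b t| := by
        rw [Complex.norm_real, Real.norm_eq_abs]
      rw [← h3, hw, he]
      have h4 := norm_sub_norm_le (CF (zw zg T) mr T b t : ℂ)
        (WW riemannZeta (tb b) T (3 * T / 2) L t)
      rw [norm_sub_rev] at h4
      linarith
    have hw0 : 0 ≤ w := by rw [hw]; positivity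
    have he0 : 0 ≤ e := by rw [he]; exact mul_nonneg (by positivity) (hEF0 t)
    have h5 : CF (zw zg T) mr T b t ^ 2 ≤ (w + e) ^ 2 := by
      rw [← sq_abs]
      exact pow_le_pow_left₀ (abs_nonneg _) h2 2
    have h6 : (w + e) ^ 2 ≤ (1 + θ) * w ^ 2 + (1 + 1 / θ) * e ^ 2 := by
      have h7 : 0 ≤ (θ * w - e) ^ 2 / θ := by positivity
      have h8 : (θ * w - e) ^ 2 / θ = θ * w ^ 2 - 2 * w * e + (1 / θ) * e ^ 2 := by
        field_simp
        ring
      nlinarith
    have h9 : e ^ 2 = (C / (b * L) ^ 2) ^ 2 * EF (zw zg T) mr T b t ^ 2 := by rw [he]; ring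
    rw [← h9, ← hw]
    exact h5.trans h6
  have hfin : ∫ t : ℝ, CF (zw zg T) mr T b t ^ 2 ≤
      (1 + θ) * ((c0 + ε') * (T / 2)) + (1 + 1 / θ) * ((C / (b * L) ^ 2) ^ 2 * (C2 * L ^ 2 * T)) := by
    calc ∫ t : ℝ, CF (zw zg T) mr T b t ^ 2 ≤ ∫ t : ℝ,
        ((1 + θ) * ‖WW riemannZeta (tb b) T (3 * T / 2) L t‖ ^ 2 +
        (1 + 1 / θ) * ((C / (b * L) ^ 2) ^ 2 * EF (zw zg T) mr T b t ^ 2)) :=
          integral_mono hCFi ((w2.const_mul _).add ((hEFi.const_mul _).const_mul _)) hpt
      _ = (1 + θ) * (∫ t : ℝ, ‖WW riemannZeta (tb b) T (3 * T / 2) L t‖ ^ 2) +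
        (1 + 1 / θ) * ((C / (b * L) ^ 2) ^ 2 * ∫ t : ℝ, EF (zw zg T) mr T b t ^ 2) := by
          rw [integral_add (w2.const_mul _) ((hEFi.const_mul _).const_mul _),
            integral_const_mul, integral_const_mul, integral_const_mul]
      _ ≤ _ := by gcongr
  refine hfin.trans ?_
  have e5 : (1 + 1 / θ) * ((C / (b * L) ^ 2) ^ 2 * (C2 * L ^ 2 * T)) = Q / L ^ 2 * T := by
    rw [hQ]
    field_simp
  rw [e5]
  have h10 : Q / L ^ 2 * T ≤ η / 4 * T := mul_le_mul_of_nonneg_right hQL hTp.le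
  have h11 : (1 + θ) * ((c0 + ε') * (T / 2)) ≤ (c0 + η / 2) * (T / 2) := by
    have : (1 + θ) * (c0 + ε') ≤ c0 + η / 2 := by nlinarith
    calc (1 + θ) * ((c0 + ε') * (T / 2)) = ((1 + θ) * (c0 + ε')) * (T / 2) := by ring
      _ ≤ _ := mul_le_mul_of_nonneg_right this (by positivity)
  rw [← hc0]
  linarith

end Pool.Agent.H606.OS
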